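import Mathlib
import Pool.Agent.W527.PC.Stm

/-!
# The group `L` is free; its elements have norm one
-/

namespace Pool.Agent.W768.PCFREE

open NumberField Pool.Agent.W527.CL Pool.Agent.W527.PC

section
variable {K : Type} [Field K] [NumberField K] (D : FieldData K) (σ : Equiv.Perm (Fin 5))

/-- the parametrisation of `L` -/
noncomputable def par (hG : S_GINJ) :
    (AddSubgroup.toIntSubmodule USym : Submodule ℤ (Matrix (Fin 4) (Fin 5) ℤ)) ≃+
      Additive (LL D σ) :=
  AddEquiv.ofBijective
    (AddMonoidHom.mk' (fun X => Additive.ofMul (⟨G D σ X.1, X.1, X.2, rfl⟩ : LL D σ)) (by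
      intro X Y
      apply Additive.toMul.injective
      apply Subtype.ext
      exact G_add D σ X.1 Y.1))
    (by
      constructor
      · rw [injective_iff_map_eq_zero]
        intro X hX
        have h1 : G D σ X.1 = 1 := congrArg (fun z => ((Additive.toMul z : LL D σ) : Kˣ)) hX
        exact Subtype.ext (hG K D σ X.1 h1)
      · rintro ⟨x, X, hX, rfl⟩
        exact ⟨⟨X, hX⟩, rfl⟩)

end

theorem t_FREE (hG : S_GINJ) : S_FREE := by
  intro K _ _ D σ
  let e : (AddSubgroup.toIntSubmodule USym : Submodule ℤ (Matrix (Fin 4) (Fin 5) ℤ)) ≃ₗ[ℤ]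
    Additive (LL D σ) := (par D σ hG).toIntLinearEquiv
  have hfree : Module.Free ℤ (Additive (LL D σ)) := Module.Free.of_equiv e
  have hfin : Module.Finite ℤ (Additive (LL D σ)) := Module.Finite.equiv e
  constructor
  · let b := Module.finBasis ℤ (Additive (LL D σ))
    have f : Additive (LL D σ) ≃+ (Fin (rk K (LL D σ)) → ℤ) := b.equivFun.toAddEquiv
    exact ⟨AddEquiv.toMultiplicativeRight f⟩
  · have h1 : AddGroup.FG (Additive (LL D σ)) := Module.Finite.iff_addGroup_fg.1 hfin
    have h2 : Group.FG (LL D σ) := GroupFG.iff_add_fg.2 h1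
    exact (Group.fg_iff_subgroup_fg _).1 h2

theorem t_NORM : S_NORM := by
  intro K _ _ D p _ P σ x hx φ
  obtain ⟨X, -, rfl⟩ := hx
  let H : Subgroup Kˣ :=
    { carrier := {x | ‖φ (x : K)‖ = 1}
      one_mem' := by simp
      mul_mem' := by
        intro a b ha hb
        simp only [Set.mem_ofPred_eq] at ha hb ⊢
        rw [Units.val_mul, map_mul, norm_mul, ha, hb, one_mul]
      inv_mem' := by
        intro a ha
        simp only [Set.mem_ofPred_eq] at ha ⊢
        rw [Units.val_inv_eq_inv_val, map_inv₀, norm_inv, ha, inv_one] }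
  have hb : ∀ k j : Fin 5, bu D k j ∈ H := by
    intro k j
    show ‖φ (D.b k + (n5 j : K))‖ = 1
    obtain ⟨π, hπ⟩ := P.emb φ
    have h1 := P.unit (π k) j
    rw [PadicInt.isUnit_iff] at h1
    rw [map_add, hπ k, map_intCast]
    rw [PadicInt.norm_def] at h1
    push_cast at h1
    exact h1
  show G D σ X ∈ H
  unfold G
  refine prod_mem fun i _ => prod_mem fun j _ => zpow_mem ?_ _
  exact div_mem (hb _ _) (hb _ _)

end Pool.Agent.W768.PCFREE
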