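import Mathlib

set_option autoImplicit false

/-! Strips in the plane: overlaps, weighted Hölder inequality for a sum over strips. -/

open MeasureTheory Set Filter Topology ENNReal NNReal

namespace Pool.Agent.W768.Tri

/-- Indicator of the strip `|y - b - t a| ≤ K`. -/
noncomputable def J (K b a t y : ℝ) : ℝ≥0∞ := if |y - b - t * a| ≤ K then 1 else 0

theorem J_measurable (K b a : ℝ) : Measurable (fun p : ℝ × ℝ => J K b a p.1 p.2) := by
  unfold J
  refine Measurable.ite ?_ measurable_const measurable_const
  exact measurableSet_le (by fun_prop) measurable_const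

theorem J_mul_self (K b a t y : ℝ) : J K b a t y * J K b a t y = J K b a t y := by
  unfold J; split_ifs <;> simp

theorem J_rpow (K b a t y : ℝ) {e : ℝ} (he : 0 < e) : J K b a t y ^ e = J K b a t y := by
  unfold J; split_ifs
  · simp
  · simp [he]

theorem J_le_one (K b a t y : ℝ) : J K b a t y ≤ 1 := by
  unfold J; split_ifs <;> simp

theorem lint_J {K : ℝ} (_hK : 0 ≤ K) (b a t : ℝ) : ∫⁻ y, J K b a t y = ENNReal.ofReal (2 * K) := by
  have h : ∀ y, J K b a t y = (Icc (b + t * a - K) (b + t * a + K)).indicator (fun _ => (1 : ℝ≥0∞)) y := by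
    intro y
    unfold J
    by_cases hy : |y - b - t * a| ≤ K
    · rw [if_pos hy, indicator_of_mem]
      rw [abs_le] at hy
      constructor <;> linarith [hy.1, hy.2]
    · rw [if_neg hy, indicator_of_notMem]
      rintro ⟨h1, h2⟩
      apply hy
      rw [abs_le]
      constructor <;> linarith
  simp_rw [h]
  rw [lintegral_indicator measurableSet_Icc, setLIntegral_const, one_mul, Real.volume_Icc]
  congr 1; ring

theorem vol_slab {r c z : ℝ} (_hr : 0 ≤ r) (hc : c ≠ 0) :
    volume {t : ℝ | |z + t * c| ≤ r} ≤ ENNReal.ofReal (2 * r / |c|) := by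
  have hc' : 0 < |c| := abs_pos.2 hc
  have hsub : {t : ℝ | |z + t * c| ≤ r} ⊆ Metric.closedBall (-z / c) (r / |c|) := by
    intro t ht
    rw [mem_ofPred_eq] at ht
    rw [Metric.mem_closedBall, Real.dist_eq, le_div_iff₀ hc', ← abs_mul]
    have : (t - -z / c) * c = z + t * c := by field_simp; ring
    rwa [this]
  refine (measure_mono hsub).trans ?_
  rw [Real.volume_closedBall]
  apply ENNReal.ofReal_le_ofReal
  apply le_of_eq; ring

/-- overlap of two strips on the window `[-S, S]` -/
theorem overlap {K S : ℝ} (hK : 0 ≤ K) (hS : 0 ≤ S) (b b' : ℝ) (a a' : ℤ) :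
    ∫⁻ t in Icc (-S) S, ∫⁻ y, J K b a t y * J K b' a' t y ≤
      ENNReal.ofReal ((4 * S * K + 16 * K ^ 2) / (1 + |(a : ℝ) - a'|)) := by
  rcases eq_or_ne a a' with h | h
  · subst h
    calc ∫⁻ t in Icc (-S) S, ∫⁻ y, J K b a t y * J K b' a t y
        ≤ ∫⁻ t in Icc (-S) S, ENNReal.ofReal (2 * K) := by
          refine lintegral_mono fun t => ?_
          rw [← lint_J hK b a t]
          refine lintegral_mono fun y => ?_
          calc J K b a t y * J K b' a t y ≤ J K b a t y * 1 := by gcongr; exact J_le_one _ _ _ _ _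
            _ = J K b a t y := mul_one _
      _ = ENNReal.ofReal (2 * K) * ENNReal.ofReal (2 * S) := by
          rw [setLIntegral_const, Real.volume_Icc]
          congr 2; ring
      _ = ENNReal.ofReal (4 * S * K) := by
          rw [← ENNReal.ofReal_mul (by positivity)]
          congr 1; ring
      _ ≤ _ := by
          apply ENNReal.ofReal_le_ofReal
          simp only [sub_self, abs_zero, add_zero, div_one]
          nlinarith [sq_nonneg K]
  · have hne : ((a : ℝ) - a') ≠ 0 := by
      rw [sub_ne_zero]; exact_mod_cast h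
    have h1 : (1 : ℝ) ≤ |(a : ℝ) - a'| := by
      have : (1 : ℤ) ≤ |a - a'| := Int.one_le_abs (sub_ne_zero.2 h)
      have h2 : ((1 : ℤ) : ℝ) ≤ ((|a - a'| : ℤ) : ℝ) := by exact_mod_cast this
      simpa using h2
    have h0 : 0 < |(a : ℝ) - a'| := by linarith
    set E : Set ℝ := {t : ℝ | |(b - b') + t * ((a : ℝ) - a')| ≤ 2 * K} with hE
    have hEm : MeasurableSet E := measurableSet_le (by fun_prop) measurable_const
    calc ∫⁻ t in Icc (-S) S, ∫⁻ y, J K b a t y * J K b' a' t y
        ≤ ∫⁻ t, ∫⁻ y, J K b a t y * J K b' a' t y := lintegral_mono' Measure.restrict_le_self le_rfl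
      _ ≤ ∫⁻ t, E.indicator (fun _ => ENNReal.ofReal (2 * K)) t := by
          refine lintegral_mono fun t => ?_
          by_cases ht : t ∈ E
          · simp only [indicator_of_mem ht]
            rw [← lint_J hK b a t]
            refine lintegral_mono fun y => ?_
            calc J K b a t y * J K b' a' t y ≤ J K b a t y * 1 := by gcongr; exact J_le_one _ _ _ _ _
              _ = J K b a t y := mul_one _
          · simp only [indicator_of_notMem ht]
            rw [nonpos_iff_eq_zero, lintegral_eq_zero_iff']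
            · refine Eventually.of_forall fun y => ?_
              simp only [Pi.zero_apply, mul_eq_zero]
              by_contra hcon
              push Not at hcon
              obtain ⟨hA, hB⟩ := hcon
              unfold J at hA hB
              have hA' : |y - b - t * a| ≤ K := by
                by_contra hx; exact hA (if_neg hx)
              have hB' : |y - b' - t * a'| ≤ K := by
                by_contra hx; exact hB (if_neg hx)
              apply ht
              rw [hE, mem_ofPred_eq]
              have e : (b - b') + t * ((a : ℝ) - a') = (y - b' - t * a') - (y - b - t * a) := by ring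
              rw [e]
              calc _ ≤ |y - b' - t * a'| + |y - b - t * a| := abs_sub _ _
                _ ≤ 2 * K := by linarith
            · have hm : Measurable (fun y => J K b a t y * J K b' a' t y) :=
                ((J_measurable K b a).comp (measurable_const.prodMk measurable_id)).mul
                  ((J_measurable K b' a').comp (measurable_const.prodMk measurable_id))
              exact hm.aemeasurable
      _ = ENNReal.ofReal (2 * K) * volume E := by
          rw [lintegral_indicator hEm, setLIntegral_const]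
      _ ≤ ENNReal.ofReal (2 * K) * ENNReal.ofReal (2 * (2 * K) / |(a : ℝ) - a'|) := by
          gcongr
          exact vol_slab (by linarith) hne
      _ = ENNReal.ofReal (8 * K ^ 2 / |(a : ℝ) - a'|) := by
          rw [← ENNReal.ofReal_mul (by positivity)]
          congr 1; ring
      _ ≤ _ := by
          apply ENNReal.ofReal_le_ofReal
          rw [div_le_div_iff₀ h0 (by linarith)]
          have : 0 ≤ S * K := mul_nonneg hS hK
          nlinarith [mul_nonneg this h0.le, mul_nonneg (sq_nonneg K) h0.le, sq_nonneg K,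
            mul_nonneg (sq_nonneg K) (sub_nonneg.2 h1)]

/-- Minkowski inequality for finite sums -/
theorem minkowski {α ι : Type*} [MeasurableSpace α] {ν : Measure α} {e : ℝ} (he : 1 ≤ e)
    (s : Finset ι) (f : ι → α → ℝ≥0∞) (hf : ∀ i ∈ s, AEMeasurable (f i) ν) :
    (∫⁻ x, (∑ i ∈ s, f i x) ^ e ∂ν) ^ (1 / e) ≤ ∑ i ∈ s, (∫⁻ x, f i x ^ e ∂ν) ^ (1 / e) := by
  classical
  induction s using Finset.induction_on with
  | empty =>
    have he0 : 0 < e := by linarith
    simp [ENNReal.zero_rpow_of_pos he0]
    linarith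
  | insert i s hi ih =>
    have hfs : ∀ j ∈ s, AEMeasurable (f j) ν := fun j hj => hf j (Finset.mem_insert_of_mem hj)
    rw [Finset.sum_insert hi]
    simp_rw [Finset.sum_insert hi]
    have h1 := ENNReal.lintegral_Lp_add_le (μ := ν) (f := f i) (g := fun x => ∑ j ∈ s, f j x)
      (hf i (Finset.mem_insert_self _ _)) (Finset.aemeasurable_fun_sum s hfs) he
    simp only [Pi.add_apply] at h1
    exact h1.trans (by gcongr; exact ih hfs)

/-- Weighted power mean inequality. -/
theorem jensen {ι : Type*} (s : Finset ι) (w c x : ι → ℝ≥0∞) {q : ℝ} (hq : 1 < q)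
    (hw0 : ∀ i ∈ s, w i ≠ 0) (hwt : ∀ i ∈ s, w i ≠ ⊤) (hc : ∀ i ∈ s, c i = 0 ∨ c i = 1) :
    (∑ i ∈ s, c i * x i) ^ q ≤
      (∑ i ∈ s, w i * c i) ^ (q - 1) * ∑ i ∈ s, (w i) ^ (-(q - 1)) * (c i * x i ^ q) := by
  have hq0 : 0 < q := by linarith
  have hq1 : 0 < q - 1 := by linarith
  set q' : ℝ := q / (q - 1) with hq'
  have hconj : q'.HolderConjugate q := by
    rw [Real.holderConjugate_iff]
    refine ⟨by rw [hq', lt_div_iff₀ hq1]; linarith, ?_⟩
    rw [hq']; field_simp; ring
  have hq'0 : 0 < q' := hconj.pos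
  have h := ENNReal.inner_le_Lp_mul_Lq s (fun i => (w i * c i) ^ (1 / q'))
    (fun i => (w i) ^ (-(1 / q')) * (c i * x i)) hconj
  have e1 : ∀ i ∈ s, (w i * c i) ^ (1 / q') * ((w i) ^ (-(1 / q')) * (c i * x i)) = c i * x i := by
    intro i hi
    rcases hc i hi with h0 | h0
    · simp [h0]
    · rw [h0, mul_one, one_mul, ← mul_assoc, ← ENNReal.rpow_add _ _ (hw0 i hi) (hwt i hi)]
      simp
  have e2 : ∀ i ∈ s, ((w i * c i) ^ (1 / q')) ^ q' = w i * c i := by
    intro i _
    rw [← ENNReal.rpow_mul, one_div, inv_mul_cancel₀ hq'0.ne', ENNReal.rpow_one]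
  have e3 : ∀ i ∈ s, ((w i) ^ (-(1 / q')) * (c i * x i)) ^ q = (w i) ^ (-(q - 1)) * (c i * x i ^ q) := by
    intro i hi
    rw [ENNReal.mul_rpow_of_nonneg _ _ hq0.le, ← ENNReal.rpow_mul, ENNReal.mul_rpow_of_nonneg _ _ hq0.le]
    have e4 : -(1 / q') * q = -(q - 1) := by rw [hq']; field_simp
    have e5 : c i ^ q = c i := by
      rcases hc i hi with h0 | h0
      · rw [h0, ENNReal.zero_rpow_of_pos hq0]
      · rw [h0, ENNReal.one_rpow]
    rw [e4, e5]
  rw [Finset.sum_congr rfl e1, Finset.sum_congr rfl e2, Finset.sum_congr rfl e3] at h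
  calc (∑ i ∈ s, c i * x i) ^ q
      ≤ ((∑ i ∈ s, w i * c i) ^ (1 / q') * (∑ i ∈ s, (w i) ^ (-(q - 1)) * (c i * x i ^ q)) ^ (1 / q)) ^ q := by
        gcongr
    _ = _ := by
        rw [ENNReal.mul_rpow_of_nonneg _ _ hq0.le, ← ENNReal.rpow_mul, ← ENNReal.rpow_mul, one_div q,
          inv_mul_cancel₀ hq0.ne', ENNReal.rpow_one]
        congr 2
        rw [hq']; field_simp

end Pool.Agent.W768.Tri
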