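import Pool.Agent.W768.Tri1

set_option autoImplicit false

/-! The weighted inequality for a sum over strips with arbitrary fibre functions. -/

open MeasureTheory Set Filter Topology ENNReal NNReal

namespace Pool.Agent.W768.Tri

/-- The window `[-S, S]` as a measure. -/
noncomputable abbrev τ (S : ℝ) : Measure ℝ := volume.restrict (Icc (-S) S)

/-- Minkowski bound for the sum over the strips, on one strip. -/
theorem strip_sum {K S : ℝ} (hK : 0 ≤ K) (hS : 0 ≤ S) (C : Finset ℤ) (β : ℤ → ℝ) (w : ℤ → ℝ≥0∞)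
    (a : ℤ) {e : ℝ} (he : 1 ≤ e) :
    (∫⁻ t, ∫⁻ y, J K (β a) a t y * (∑ c ∈ C, w c * J K (β c) c t y) ^ e ∂volume ∂(τ S)) ^ (1 / e) ≤
      ∑ c ∈ C, w c * ENNReal.ofReal ((4 * S * K + 16 * K ^ 2) / (1 + |(a : ℝ) - c|)) ^ (1 / e) := by
  have he0 : 0 < e := by linarith
  have hm : ∀ c : ℤ, Measurable (fun p : ℝ × ℝ => J K (β c) c p.1 p.2) := fun c => J_measurable _ _ _
  have h1 : ∫⁻ t, ∫⁻ y, J K (β a) a t y * (∑ c ∈ C, w c * J K (β c) c t y) ^ e ∂volume ∂(τ S) =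
      ∫⁻ p : ℝ × ℝ, (∑ c ∈ C, w c * (J K (β a) a p.1 p.2 * J K (β c) c p.1 p.2)) ^ e
        ∂((τ S).prod volume) := by
    rw [lintegral_prod _ (by
      apply Measurable.aemeasurable
      apply Measurable.pow_const
      exact Finset.measurable_fun_sum _ fun c _ => ((hm a).mul (hm c)).const_mul _)]
    refine lintegral_congr fun t => lintegral_congr fun y => ?_
    simp only
    have e1 : ∑ c ∈ C, w c * (J K (β a) a t y * J K (β c) c t y) =
        J K (β a) a t y * ∑ c ∈ C, w c * J K (β c) c t y := by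
      rw [Finset.mul_sum]
      refine Finset.sum_congr rfl fun c _ => ?_
      ring
    rw [e1, ENNReal.mul_rpow_of_nonneg _ _ he0.le, J_rpow _ _ _ _ _ he0]
  rw [h1]
  refine (minkowski he C (fun c (p : ℝ × ℝ) => w c * (J K (β a) a p.1 p.2 * J K (β c) c p.1 p.2))
    (fun c _ => (((hm a).mul (hm c)).const_mul _).aemeasurable)).trans ?_
  refine Finset.sum_le_sum fun c _ => ?_
  have h2 : ∫⁻ p : ℝ × ℝ, (w c * (J K (β a) a p.1 p.2 * J K (β c) c p.1 p.2)) ^ e ∂((τ S).prod volume) =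
      w c ^ e * ∫⁻ t, ∫⁻ y, J K (β a) a t y * J K (β c) c t y ∂volume ∂(τ S) := by
    have hmm : Measurable (fun p : ℝ × ℝ => J K (β a) a p.1 p.2 * J K (β c) c p.1 p.2) := (hm a).mul (hm c)
    have h3 := lintegral_prod (μ := τ S) (ν := volume) _ hmm.aemeasurable
    simp only at h3
    rw [← h3, ← lintegral_const_mul _ hmm]
    refine lintegral_congr fun p => ?_
    rw [ENNReal.mul_rpow_of_nonneg _ _ he0.le, ENNReal.mul_rpow_of_nonneg _ _ he0.le,
      J_rpow _ _ _ _ _ he0, J_rpow _ _ _ _ _ he0]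
  rw [h2, ENNReal.mul_rpow_of_nonneg _ _ (by positivity), ← ENNReal.rpow_mul, mul_one_div_cancel he0.ne',
    ENNReal.rpow_one]
  gcongr
  exact overlap hK hS _ _ _ _

/-- Interpolation in the fibre. -/
theorem fibre_holder {Y : Type*} [MeasurableSpace Y] {μ : Measure Y} {g : Y → ℝ≥0∞}
    (hg : Measurable g) {q p1 p2 : ℝ} (hq : 1 < q) (hp : p1.HolderConjugate p2) :
    (∫⁻ y, g y ^ q ∂μ) ^ p2 ≤ (∫⁻ y, g y ∂μ) ^ (p2 - 1) * ∫⁻ y, g y ^ (1 + (q - 1) * p2) ∂μ := by
  have hp1 : 0 < p1 := hp.pos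
  have hp2 : 0 < p2 := hp.symm.pos
  have hp2' : 1 < p2 := hp.symm.lt
  have hp1' : 1 < p1 := hp.lt
  have hsum : 1 / p1 + 1 / p2 = 1 := by simpa using hp.inv_add_inv_eq_one
  have h := ENNReal.lintegral_mul_le_Lp_mul_Lq μ hp (f := fun y => g y ^ (1 / p1))
    (g := fun y => g y ^ (q - 1 / p1)) (hg.pow_const _).aemeasurable (hg.pow_const _).aemeasurable
  have hlt : 1 / p1 < 1 := by rw [div_lt_one hp1]; exact hp1'
  have e1 : ∀ y, ((fun y => g y ^ (1 / p1)) * fun y => g y ^ (q - 1 / p1)) y = g y ^ q := by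
    intro y
    simp only [Pi.mul_apply]
    rw [← ENNReal.rpow_add_of_nonneg _ _ (by positivity) (by linarith)]
    congr 1; ring
  simp_rw [e1] at h
  have e2 : ∀ y, (g y ^ (1 / p1)) ^ p1 = g y := by
    intro y
    rw [← ENNReal.rpow_mul, one_div_mul_cancel hp1.ne', ENNReal.rpow_one]
  have e3 : ∀ y, (g y ^ (q - 1 / p1)) ^ p2 = g y ^ (1 + (q - 1) * p2) := by
    intro y
    rw [← ENNReal.rpow_mul]
    congr 1
    have : 1 / p1 = 1 - 1 / p2 := by linarith
    rw [this]; field_simp; ring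
  simp_rw [e2, e3] at h
  calc (∫⁻ y, g y ^ q ∂μ) ^ p2
      ≤ ((∫⁻ y, g y ∂μ) ^ (1 / p1) * (∫⁻ y, g y ^ (1 + (q - 1) * p2) ∂μ) ^ (1 / p2)) ^ p2 := by
        gcongr
    _ = _ := by
        rw [ENNReal.mul_rpow_of_nonneg _ _ hp2.le, ← ENNReal.rpow_mul, ← ENNReal.rpow_mul,
          one_div_mul_cancel hp2.ne', ENNReal.rpow_one]
        congr 2
        have : 1 / p1 = 1 - 1 / p2 := by linarith
        rw [this]; field_simp

/-- The weighted inequality. -/
theorem weighted {Y : Type*} [MeasurableSpace Y] {μ : Measure Y} [SFinite μ] {K S : ℝ} (hK : 0 ≤ K)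
    (hS : 0 ≤ S) (C : Finset ℤ) (β : ℤ → ℝ) (w : ℤ → ℝ≥0∞) (hw0 : ∀ a ∈ C, w a ≠ 0)
    (hwt : ∀ a ∈ C, w a ≠ ⊤) (g : ℤ → ℝ → Y → ℝ≥0∞) (hg : ∀ a, Measurable (fun p : ℝ × Y => g a p.1 p.2))
    {q p1 p2 : ℝ} (hq : 1 < q) (hp : p1.HolderConjugate p2) (he : 1 ≤ (q - 1) * p1) :
    ∫⁻ t, ∫⁻ y, ∫⁻ z, (∑ a ∈ C, J K (β a) a t y * g a t z) ^ q ∂μ ∂volume ∂(τ S) ≤
      ∑ a ∈ C, (w a) ^ (-(q - 1)) *
        ((∑ c ∈ C, w c * ENNReal.ofReal ((4 * S * K + 16 * K ^ 2) / (1 + |(a : ℝ) - c|)) ^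
          (1 / ((q - 1) * p1))) ^ (q - 1) *
        (ENNReal.ofReal (2 * K) * ∫⁻ t, (∫⁻ z, g a t z ∂μ) ^ (p2 - 1) *
          ∫⁻ z, g a t z ^ (1 + (q - 1) * p2) ∂μ ∂(τ S)) ^ (1 / p2)) := by
  have hq0 : 0 < q := by linarith
  have hq1 : 0 < q - 1 := by linarith
  have hp1 : 0 < p1 := hp.pos
  have hp2 : 0 < p2 := hp.symm.pos
  have hgt : ∀ a t, Measurable (fun z => g a t z) := fun a t => (hg a).comp (measurable_const.prodMk measurable_id)
  have hJm : ∀ a : ℤ, Measurable (fun p : ℝ × ℝ => J K (β a) a p.1 p.2) := fun a => J_measurable _ _ _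
  have hGm : ∀ a : ℤ, Measurable (fun t : ℝ => ∫⁻ z, g a t z ^ q ∂μ) := fun a =>
    ((hg a).pow_const q).lintegral_prod_right'
  set W : ℝ → ℝ → ℝ≥0∞ := fun t y => ∑ c ∈ C, w c * J K (β c) c t y with hW
  have hWm : Measurable (fun p : ℝ × ℝ => W p.1 p.2) := by
    simp only [hW]
    exact Finset.measurable_fun_sum _ fun c _ => (hJm c).const_mul _
  -- pointwise in (t, y)
  have h1 : ∀ t y, ∫⁻ z, (∑ a ∈ C, J K (β a) a t y * g a t z) ^ q ∂μ ≤
      ∑ a ∈ C, (w a) ^ (-(q - 1)) * (J K (β a) a t y * W t y ^ (q - 1) * ∫⁻ z, g a t z ^ q ∂μ) := by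
    intro t y
    calc ∫⁻ z, (∑ a ∈ C, J K (β a) a t y * g a t z) ^ q ∂μ
        ≤ ∫⁻ z, W t y ^ (q - 1) * ∑ a ∈ C, (w a) ^ (-(q - 1)) * (J K (β a) a t y * g a t z ^ q) ∂μ := by
          refine lintegral_mono fun z => ?_
          refine jensen C w (fun a => J K (β a) a t y) (fun a => g a t z) hq hw0 hwt ?_
          intro a _
          unfold J; split_ifs <;> simp
      _ = W t y ^ (q - 1) * ∑ a ∈ C, (w a) ^ (-(q - 1)) * (J K (β a) a t y * ∫⁻ z, g a t z ^ q ∂μ) := by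
          rw [lintegral_const_mul _ (Finset.measurable_fun_sum _ fun a _ =>
            (((hgt a t).pow_const q).const_mul _).const_mul _)]
          rw [lintegral_finsetSum _ fun a _ => (((hgt a t).pow_const q).const_mul _).const_mul _]
          congr 1
          refine Finset.sum_congr rfl fun a _ => ?_
          rw [lintegral_const_mul _ (((hgt a t).pow_const q).const_mul _),
            lintegral_const_mul _ ((hgt a t).pow_const q)]
      _ = _ := by
          rw [Finset.mul_sum]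
          refine Finset.sum_congr rfl fun a _ => ?_
          ring
  have hsm : ∀ a : ℤ, Measurable (fun p : ℝ × ℝ =>
      J K (β a) a p.1 p.2 * W p.1 p.2 ^ (q - 1) * ∫⁻ z, g a p.1 z ^ q ∂μ) := fun a =>
    ((hJm a).mul (hWm.pow_const _)).mul ((hGm a).comp measurable_fst)
  calc ∫⁻ t, ∫⁻ y, ∫⁻ z, (∑ a ∈ C, J K (β a) a t y * g a t z) ^ q ∂μ ∂volume ∂(τ S)
      ≤ ∫⁻ t, ∫⁻ y, ∑ a ∈ C, (w a) ^ (-(q - 1)) *
          (J K (β a) a t y * W t y ^ (q - 1) * ∫⁻ z, g a t z ^ q ∂μ) ∂volume ∂(τ S) :=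
        lintegral_mono fun t => lintegral_mono fun y => h1 t y
    _ = ∫⁻ p : ℝ × ℝ, ∑ a ∈ C, (w a) ^ (-(q - 1)) *
          (J K (β a) a p.1 p.2 * W p.1 p.2 ^ (q - 1) * ∫⁻ z, g a p.1 z ^ q ∂μ) ∂((τ S).prod volume) := by
        rw [lintegral_prod _ (Finset.measurable_fun_sum _ fun a _ => (hsm a).const_mul _).aemeasurable]
    _ = ∑ a ∈ C, (w a) ^ (-(q - 1)) * ∫⁻ p : ℝ × ℝ,
          (J K (β a) a p.1 p.2 * W p.1 p.2 ^ (q - 1)) * (J K (β a) a p.1 p.2 * ∫⁻ z, g a p.1 z ^ q ∂μ)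
            ∂((τ S).prod volume) := by
        rw [lintegral_finsetSum _ fun a _ => (hsm a).const_mul _]
        refine Finset.sum_congr rfl fun a _ => ?_
        rw [lintegral_const_mul _ (hsm a)]
        congr 1
        refine lintegral_congr fun p => ?_
        calc J K (β a) a p.1 p.2 * W p.1 p.2 ^ (q - 1) * ∫⁻ z, g a p.1 z ^ q ∂μ
            = (J K (β a) a p.1 p.2 * J K (β a) a p.1 p.2) * W p.1 p.2 ^ (q - 1) *
              ∫⁻ z, g a p.1 z ^ q ∂μ := by rw [J_mul_self]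
          _ = _ := by ring
    _ ≤ _ := by
        refine Finset.sum_le_sum fun a _ => ?_
        gcongr
        refine (ENNReal.lintegral_mul_le_Lp_mul_Lq ((τ S).prod volume) hp
          (f := fun p => J K (β a) a p.1 p.2 * W p.1 p.2 ^ (q - 1))
          (g := fun p => J K (β a) a p.1 p.2 * ∫⁻ z, g a p.1 z ^ q ∂μ)
          ((hJm a).mul (hWm.pow_const _)).aemeasurable
          ((hJm a).mul ((hGm a).comp measurable_fst)).aemeasurable).trans ?_
        gcongr
        · -- first factor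
          have e1 : ∀ p : ℝ × ℝ, (J K (β a) a p.1 p.2 * W p.1 p.2 ^ (q - 1)) ^ p1 =
              J K (β a) a p.1 p.2 * W p.1 p.2 ^ ((q - 1) * p1) := by
            intro p
            rw [ENNReal.mul_rpow_of_nonneg _ _ hp1.le, J_rpow _ _ _ _ _ hp1, ← ENNReal.rpow_mul]
          simp_rw [e1]
          have hmm : Measurable (fun p : ℝ × ℝ => J K (β a) a p.1 p.2 * W p.1 p.2 ^ ((q - 1) * p1)) :=
            (hJm a).mul (hWm.pow_const _)
          rw [lintegral_prod _ hmm.aemeasurable]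
          have h2 := strip_sum hK hS C β w a he
          have e2 : (1 : ℝ) / p1 = 1 / ((q - 1) * p1) * (q - 1) := by field_simp
          rw [e2, ENNReal.rpow_mul]
          gcongr
        · -- second factor
          have e1 : ∀ p : ℝ × ℝ, (J K (β a) a p.1 p.2 * ∫⁻ z, g a p.1 z ^ q ∂μ) ^ p2 =
              (∫⁻ z, g a p.1 z ^ q ∂μ) ^ p2 * J K (β a) a p.1 p.2 := by
            intro p
            rw [ENNReal.mul_rpow_of_nonneg _ _ hp2.le, J_rpow _ _ _ _ _ hp2, mul_comm]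
          simp_rw [e1]
          have hmm : Measurable (fun p : ℝ × ℝ => (∫⁻ z, g a p.1 z ^ q ∂μ) ^ p2 * J K (β a) a p.1 p.2) :=
            (((hGm a).comp measurable_fst).pow_const _).mul (hJm a)
          rw [lintegral_prod _ hmm.aemeasurable]
          rw [← lintegral_const_mul' _ _ ENNReal.ofReal_ne_top]
          refine lintegral_mono fun t => ?_
          simp only
          have hJt : Measurable (fun y : ℝ => J K (β a) a t y) :=
            (hJm a).comp (measurable_const.prodMk measurable_id)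
          rw [lintegral_const_mul _ hJt, lint_J hK, mul_comm]
          gcongr
          exact fibre_holder (hgt a t) hq hp

end Pool.Agent.W768.Tri
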