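import Mathlib

set_option autoImplicit false

/-! Numerical sums for the triangular families. -/

open Set Filter Topology Finset

namespace Pool.Agent.W768.Tri

theorem head_sum {σ : ℝ} (h0 : 0 ≤ σ) (h1 : σ < 1) (n : ℕ) :
    ∑ j ∈ range n, (1 + (j : ℝ)) ^ (-σ) ≤ (n : ℝ) ^ (1 - σ) / (1 - σ) := by
  have hs : 0 < 1 - σ := by linarith
  induction n with
  | zero => simp [Real.zero_rpow hs.ne']
  | succ n ih =>
    rw [Finset.sum_range_succ]
    have hn : (0 : ℝ) < (n : ℝ) + 1 := by positivity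
    have key : (n : ℝ) ^ (1 - σ) ≤ ((n : ℝ) + 1) ^ (1 - σ) - (1 - σ) * ((n : ℝ) + 1) ^ (-σ) := by
      have h2 : (n : ℝ) = ((n : ℝ) + 1) * (1 + -(1 / ((n : ℝ) + 1))) := by field_simp; ring
      have h3 : (1 : ℝ) / ((n : ℝ) + 1) ≤ 1 := by
        rw [div_le_one hn]; linarith [Nat.cast_nonneg (α := ℝ) n]
      have h4 := rpow_one_add_le_one_add_mul_self (s := -(1 / ((n : ℝ) + 1))) (by linarith) hs.le (by linarith)
      calc (n : ℝ) ^ (1 - σ) = ((n : ℝ) + 1) ^ (1 - σ) * (1 + -(1 / ((n : ℝ) + 1))) ^ (1 - σ) := by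
            rw [← Real.mul_rpow hn.le (by linarith), ← h2]
        _ ≤ ((n : ℝ) + 1) ^ (1 - σ) * (1 + (1 - σ) * -(1 / ((n : ℝ) + 1))) := by gcongr
        _ = _ := by
            have h5 : ((n : ℝ) + 1) ^ (1 - σ) = ((n : ℝ) + 1) * ((n : ℝ) + 1) ^ (-σ) := by
              rw [show 1 - σ = 1 + -σ by ring, Real.rpow_add hn, Real.rpow_one]
            rw [h5]; field_simp; ring
    have h6 : (1 + (n : ℝ)) = (n : ℝ) + 1 := by ring
    push_cast
    rw [h6, le_div_iff₀ hs, add_mul]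
    rw [le_div_iff₀ hs] at ih
    linarith

theorem tail_sum {σ : ℝ} (h1 : 1 < σ) (n : ℕ) (hn : 1 ≤ n) (M : ℕ) (hM : n ≤ M) :
    ∑ j ∈ Ico n M, (1 + (j : ℝ)) ^ (-σ) ≤ ((n : ℝ) ^ (1 - σ) - (M : ℝ) ^ (1 - σ)) / (σ - 1) := by
  have hs : 0 < σ - 1 := by linarith
  induction M, hM using Nat.le_induction with
  | base => simp
  | succ M hM ih =>
    rw [Finset.sum_Ico_succ_top hM]
    have hM0 : (0 : ℝ) < (M : ℝ) := by
      have : 0 < M := by omega
      exact_mod_cast this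
    have hM1 : (0 : ℝ) < (M : ℝ) + 1 := by positivity
    have key : ((M : ℝ) + 1) ^ (1 - σ) + (σ - 1) * ((M : ℝ) + 1) ^ (-σ) ≤ (M : ℝ) ^ (1 - σ) := by
      have h2 : (M : ℝ) = ((M : ℝ) + 1) * (1 - 1 / ((M : ℝ) + 1)) := by field_simp; ring
      have h3 : (0 : ℝ) < 1 - 1 / ((M : ℝ) + 1) := by
        rw [sub_pos, div_lt_one hM1]; linarith
      have h4 : 1 + (σ - 1) * (1 / ((M : ℝ) + 1)) ≤ (1 - 1 / ((M : ℝ) + 1)) ^ (1 - σ) := by
        have h5 : Real.log (1 - 1 / ((M : ℝ) + 1)) ≤ -(1 / ((M : ℝ) + 1)) := by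
          have := Real.log_le_sub_one_of_pos h3
          linarith
        rw [Real.rpow_def_of_pos h3]
        calc 1 + (σ - 1) * (1 / ((M : ℝ) + 1)) ≤ Real.exp ((σ - 1) * (1 / ((M : ℝ) + 1))) := by
              have := Real.add_one_le_exp ((σ - 1) * (1 / ((M : ℝ) + 1)))
              linarith
          _ ≤ _ := by
              apply Real.exp_le_exp.2
              nlinarith
      calc ((M : ℝ) + 1) ^ (1 - σ) + (σ - 1) * ((M : ℝ) + 1) ^ (-σ)
          = ((M : ℝ) + 1) ^ (1 - σ) * (1 + (σ - 1) * (1 / ((M : ℝ) + 1))) := by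
            have h5 : ((M : ℝ) + 1) ^ (1 - σ) = ((M : ℝ) + 1) * ((M : ℝ) + 1) ^ (-σ) := by
              rw [show 1 - σ = 1 + -σ by ring, Real.rpow_add hM1, Real.rpow_one]
            rw [h5]; field_simp
        _ ≤ ((M : ℝ) + 1) ^ (1 - σ) * (1 - 1 / ((M : ℝ) + 1)) ^ (1 - σ) := by gcongr
        _ = (M : ℝ) ^ (1 - σ) := by
            rw [← Real.mul_rpow hM1.le h3.le, ← h2]
    have h6 : (1 + (M : ℝ)) = (M : ℝ) + 1 := by ring
    push_cast
    rw [h6, le_div_iff₀ hs, add_mul]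
    rw [le_div_iff₀ hs] at ih
    linarith

/-- two-to-one comparison -/
theorem two_to_one (C : Finset ℤ) (a : ℤ) (φ : ℕ → ℝ) (hφ : ∀ j, 0 ≤ φ j) :
    ∑ c ∈ C, φ (a - c).natAbs ≤ 2 * ∑ j ∈ C.image (fun c => (a - c).natAbs), φ j := by
  rw [← Finset.sum_fiberwise_of_maps_to (g := fun c => (a - c).natAbs)
    (t := C.image (fun c => (a - c).natAbs)) (fun c hc => Finset.mem_image_of_mem _ hc), Finset.mul_sum]
  refine Finset.sum_le_sum fun j _ => ?_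
  have h1 : ∑ c ∈ C.filter (fun c => (a - c).natAbs = j), φ (a - c).natAbs =
      (C.filter (fun c => (a - c).natAbs = j)).card * φ j := by
    rw [Finset.sum_congr rfl (g := fun _ => φ j), Finset.sum_const, nsmul_eq_mul]
    intro c hc
    rw [(Finset.mem_filter.1 hc).2]
  rw [h1]
  have h2 : (C.filter (fun c => (a - c).natAbs = j)).card ≤ 2 := by
    have : C.filter (fun c => (a - c).natAbs = j) ⊆ {a - j, a + j} := by
      intro c hc
      have := (Finset.mem_filter.1 hc).2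
      simp only [Finset.mem_insert, Finset.mem_singleton]
      omega
    exact (Finset.card_le_card this).trans Finset.card_le_two
  have h3 : ((C.filter (fun c => (a - c).natAbs = j)).card : ℝ) ≤ 2 := by exact_mod_cast h2
  exact mul_le_mul_of_nonneg_right h3 (hφ j)

theorem abs_natAbs (a c : ℤ) : |(a : ℝ) - c| = ((a - c).natAbs : ℝ) := by
  rw [← Int.cast_sub, ← Int.cast_abs, Int.abs_eq_natAbs, Int.cast_natCast]

/-- Lemma A -/
theorem sum_card {σ : ℝ} (h0 : 0 ≤ σ) (h1 : σ < 1) (C : Finset ℤ) (a : ℤ) :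
    ∑ c ∈ C, (1 + |(a : ℝ) - c|) ^ (-σ) ≤ (2 / (1 - σ) + 1) * (C.card : ℝ) ^ (1 - σ) := by
  have hs : 0 < 1 - σ := by linarith
  set n := C.card with hn
  rw [← Finset.sum_filter_add_sum_filter_not C (fun c => (a - c).natAbs < n)]
  have hA : ∑ c ∈ C.filter (fun c => (a - c).natAbs < n), (1 + |(a : ℝ) - c|) ^ (-σ) ≤
      2 / (1 - σ) * (n : ℝ) ^ (1 - σ) := by
    have e : ∀ c ∈ C.filter (fun c => (a - c).natAbs < n), (1 + |(a : ℝ) - c|) ^ (-σ) =
        (fun j : ℕ => (1 + (j : ℝ)) ^ (-σ)) (a - c).natAbs := by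
      intro c _; simp only [abs_natAbs]
    rw [Finset.sum_congr rfl e]
    refine (two_to_one _ a (fun j : ℕ => (1 + (j : ℝ)) ^ (-σ)) (fun j => by positivity)).trans ?_
    have h2 : ∑ j ∈ (C.filter (fun c => (a - c).natAbs < n)).image (fun c => (a - c).natAbs),
        (1 + (j : ℝ)) ^ (-σ) ≤ ∑ j ∈ range n, (1 + (j : ℝ)) ^ (-σ) := by
      apply Finset.sum_le_sum_of_subset_of_nonneg
      · intro j hj
        obtain ⟨c, hc, rfl⟩ := Finset.mem_image.1 hj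
        exact Finset.mem_range.2 (Finset.mem_filter.1 hc).2
      · intros; positivity
    calc _ ≤ 2 * ((n : ℝ) ^ (1 - σ) / (1 - σ)) := by
          gcongr
          exact h2.trans (head_sum h0 h1 n)
      _ = _ := by ring
  have hB : ∑ c ∈ C.filter (fun c => ¬ (a - c).natAbs < n), (1 + |(a : ℝ) - c|) ^ (-σ) ≤
      (n : ℝ) ^ (1 - σ) := by
    rcases Nat.eq_zero_or_pos n with h | h
    · have : C = ∅ := by rw [← Finset.card_eq_zero]; omega
      rw [this]; simp only [Finset.filter_empty, Finset.sum_empty]; positivity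
    have hn0 : (0 : ℝ) < n := by exact_mod_cast h
    calc ∑ c ∈ C.filter (fun c => ¬ (a - c).natAbs < n), (1 + |(a : ℝ) - c|) ^ (-σ)
        ≤ ∑ c ∈ C.filter (fun c => ¬ (a - c).natAbs < n), (n : ℝ) ^ (-σ) := by
          refine Finset.sum_le_sum fun c hc => ?_
          have h3 := (Finset.mem_filter.1 hc).2
          push Not at h3
          have h4 : (n : ℝ) ≤ ((a - c).natAbs : ℝ) := by exact_mod_cast h3
          rw [abs_natAbs]
          apply Real.rpow_le_rpow_of_nonpos hn0 (by linarith) (by linarith)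
      _ = ((C.filter (fun c => ¬ (a - c).natAbs < n)).card : ℝ) * (n : ℝ) ^ (-σ) := by
          rw [Finset.sum_const, nsmul_eq_mul]
      _ ≤ (n : ℝ) * (n : ℝ) ^ (-σ) := by
          gcongr
          exact Finset.card_filter_le _ _
      _ = (n : ℝ) ^ (1 - σ) := by
          rw [show 1 - σ = 1 + -σ by ring, Real.rpow_add hn0, Real.rpow_one]
  calc _ ≤ 2 / (1 - σ) * (n : ℝ) ^ (1 - σ) + (n : ℝ) ^ (1 - σ) := add_le_add hA hB
    _ = _ := by ring

/-- near sum -/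
theorem sum_near {σ : ℝ} (h0 : 0 ≤ σ) (h1 : σ < 1) (C : Finset ℤ) (a : ℤ) {R : ℝ} (hR : 1 ≤ R) :
    ∑ c ∈ C.filter (fun c : ℤ => |(a : ℝ) - c| ≤ R), (1 + |(a : ℝ) - c|) ^ (-σ) ≤ (2 / (1 - σ) + 1) * 3 * R ^ (1 - σ) := by
  have hs : 0 < 1 - σ := by linarith
  refine (sum_card h0 h1 _ a).trans ?_
  have hc : ((C.filter (fun c : ℤ => |(a : ℝ) - c| ≤ R)).card : ℝ) ≤ 3 * R := by
    have h2 : C.filter (fun c : ℤ => |(a : ℝ) - c| ≤ R) ⊆ Finset.Icc (a - ⌊R⌋) (a + ⌊R⌋) := by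
      intro c hc
      have h3 := (Finset.mem_filter.1 hc).2
      rw [abs_le] at h3
      rw [Finset.mem_Icc]
      have h4 : a - c ≤ ⌊R⌋ := by
        rw [Int.le_floor]; push_cast; linarith [h3.2]
      have h5 : c - a ≤ ⌊R⌋ := by
        rw [Int.le_floor]; push_cast; linarith [h3.1]
      constructor <;> linarith
    have h3 := Finset.card_le_card h2
    rw [Int.card_Icc] at h3
    have hf0 : 1 ≤ ⌊R⌋ := by rw [Int.le_floor]; exact_mod_cast hR
    have h4 : ((C.filter (fun c : ℤ => |(a : ℝ) - c| ≤ R)).card : ℤ) ≤ 3 * ⌊R⌋ := by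
      have : ((a + ⌊R⌋ + 1 - (a - ⌊R⌋)).toNat : ℤ) ≤ 3 * ⌊R⌋ := by
        rw [Int.toNat_of_nonneg (by linarith)]; linarith
      have h3' : ((C.filter (fun c : ℤ => |(a : ℝ) - c| ≤ R)).card : ℤ) ≤
        ((a + ⌊R⌋ + 1 - (a - ⌊R⌋)).toNat : ℤ) := by exact_mod_cast h3
      linarith
    have h5 : ((C.filter (fun c : ℤ => |(a : ℝ) - c| ≤ R)).card : ℝ) ≤ ((3 * ⌊R⌋ : ℤ) : ℝ) := by
      exact_mod_cast h4
    push_cast at h5
    have := Int.floor_le R
    linarith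
  calc _ ≤ (2 / (1 - σ) + 1) * (3 * R) ^ (1 - σ) := by gcongr
    _ ≤ (2 / (1 - σ) + 1) * (3 * R ^ (1 - σ)) := by
        gcongr
        rw [Real.mul_rpow (by norm_num) (by linarith)]
        gcongr
        calc (3 : ℝ) ^ (1 - σ) ≤ 3 ^ (1 : ℝ) := by
              apply Real.rpow_le_rpow_of_exponent_le (by norm_num) (by linarith)
          _ = 3 := Real.rpow_one 3
    _ = _ := by ring

/-- far sum -/
theorem sum_far {σ : ℝ} (h1 : 1 < σ) (C : Finset ℤ) (a : ℤ) {R : ℝ} (hR : 1 ≤ R) :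
    ∑ c ∈ C.filter (fun c : ℤ => ¬ |(a : ℝ) - c| ≤ R), (1 + |(a : ℝ) - c|) ^ (-σ) ≤ 2 / (σ - 1) * R ^ (1 - σ) := by
  have hs : 0 < σ - 1 := by linarith
  set D := C.filter (fun c : ℤ => ¬ |(a : ℝ) - c| ≤ R) with hD
  have e : ∀ c ∈ D, (1 + |(a : ℝ) - c|) ^ (-σ) =
      (fun j : ℕ => (1 + (j : ℝ)) ^ (-σ)) (a - c).natAbs := by
    intro c _; simp only [abs_natAbs]
  rw [Finset.sum_congr rfl e]
  refine (two_to_one _ a (fun j : ℕ => (1 + (j : ℝ)) ^ (-σ)) (fun j => by positivity)).trans ?_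
  set I := D.image (fun c => (a - c).natAbs) with hI
  set n := ⌊R⌋₊ + 1 with hn
  set M := I.sup id + 1 + n with hM
  have hsub : I ⊆ Finset.Ico n M := by
    intro j hj
    rw [Finset.mem_Ico]
    constructor
    · obtain ⟨c, hc, rfl⟩ := Finset.mem_image.1 hj
      have h3 := (Finset.mem_filter.1 hc).2
      push Not at h3
      rw [abs_natAbs] at h3
      have : ⌊R⌋₊ < (a - c).natAbs := by
        rw [Nat.floor_lt (by linarith)]; exact h3
      simp only [hn]; omega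
    · have : j ≤ I.sup id := Finset.le_sup (f := id) hj
      omega
  have h2 : ∑ j ∈ I, (1 + (j : ℝ)) ^ (-σ) ≤ ∑ j ∈ Finset.Ico n M, (1 + (j : ℝ)) ^ (-σ) := by
    apply Finset.sum_le_sum_of_subset_of_nonneg hsub
    intros; positivity
  have h3 := tail_sum h1 n (by omega) M (by omega)
  have h4 : (n : ℝ) ^ (1 - σ) ≤ R ^ (1 - σ) := by
    apply Real.rpow_le_rpow_of_nonpos (by linarith) _ (by linarith)
    rw [hn]; push_cast
    exact (Nat.lt_floor_add_one R).le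
  have h5 : (0 : ℝ) ≤ (M : ℝ) ^ (1 - σ) := by positivity
  calc 2 * ∑ j ∈ I, (1 + (j : ℝ)) ^ (-σ) ≤ 2 * (R ^ (1 - σ) / (σ - 1)) := by
        gcongr
        refine (h2.trans h3).trans ?_
        gcongr
        linarith
    _ = _ := by ring

/-- Hölder with exponents `1/θ`, `1/(1-θ)`. -/
theorem holder_theta {ι : Type*} (C : Finset ι) (n x : ι → ℝ) (hn : ∀ i ∈ C, 0 ≤ n i) (hx : ∀ i ∈ C, 0 ≤ x i)
    {θ : ℝ} (h0 : 0 < θ) (h1 : θ < 1) :
    ∑ i ∈ C, n i ^ θ * x i ≤ (∑ i ∈ C, n i) ^ θ * (∑ i ∈ C, x i ^ (1 / (1 - θ))) ^ (1 - θ) := by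
  have hs : 0 < 1 - θ := by linarith
  have hconj : (1 / θ).HolderConjugate (1 / (1 - θ)) := by
    rw [Real.holderConjugate_iff]
    refine ⟨by rw [lt_div_iff₀ h0]; linarith, ?_⟩
    field_simp; ring
  have h := Real.inner_le_Lp_mul_Lq_of_nonneg C hconj (f := fun i => n i ^ θ) (g := x)
    (fun i hi => Real.rpow_nonneg (hn i hi) _) hx
  have e1 : ∀ i ∈ C, (n i ^ θ) ^ (1 / θ) = n i := by
    intro i hi
    rw [← Real.rpow_mul (hn i hi), mul_one_div_cancel h0.ne', Real.rpow_one]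
  rw [Finset.sum_congr rfl e1] at h
  simpa only [one_div_one_div] using h

theorem T_plus {θ s : ℝ} (h0 : 0 < θ) (h1 : θ < 1) (hs0 : 0 ≤ s) (hs : s < 1 - θ) :
    ∃ K : ℝ, 0 ≤ K ∧ ∀ (C : Finset ℤ) (n : ℤ → ℝ), (∀ c ∈ C, 0 ≤ n c) → ∀ N R : ℝ, ∑ c ∈ C, n c ≤ N →
      (C.card : ℝ) ≤ R → ∀ a : ℤ,
      ∑ c ∈ C, n c ^ θ * (1 + |(a : ℝ) - c|) ^ (-s) ≤ K * (N ^ θ * R ^ (1 - θ - s)) := by
  have ht : 0 < 1 - θ := by linarith
  set σ := s / (1 - θ) with hσ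
  have hσ0 : 0 ≤ σ := by positivity
  have hσ1 : σ < 1 := by rw [hσ, div_lt_one ht]; exact hs
  have hσs : 0 < 1 - σ := by linarith
  refine ⟨(2 / (1 - σ) + 1) ^ (1 - θ), by positivity, ?_⟩
  intro C n hn N R hN hR a
  have hN0 : 0 ≤ ∑ c ∈ C, n c := Finset.sum_nonneg hn
  have hR0 : (0 : ℝ) ≤ C.card := by positivity
  refine (holder_theta C n _ hn (fun c _ => by positivity) h0 h1).trans ?_
  have e1 : ∀ c ∈ C, ((1 + |(a : ℝ) - c|) ^ (-s)) ^ (1 / (1 - θ)) = (1 + |(a : ℝ) - c|) ^ (-σ) := by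
    intro c _
    rw [← Real.rpow_mul (by positivity)]
    congr 1; rw [hσ]; ring
  rw [Finset.sum_congr rfl e1]
  calc (∑ c ∈ C, n c) ^ θ * (∑ c ∈ C, (1 + |(a : ℝ) - c|) ^ (-σ)) ^ (1 - θ)
      ≤ N ^ θ * ((2 / (1 - σ) + 1) * R ^ (1 - σ)) ^ (1 - θ) := by
        gcongr
        · exact Real.rpow_nonneg (hN0.trans hN) _
        · refine (sum_card hσ0 hσ1 C a).trans ?_
          gcongr
    _ = _ := by
        rw [Real.mul_rpow (by positivity) (Real.rpow_nonneg (hR0.trans hR) _),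
          ← Real.rpow_mul (hR0.trans hR)]
        have : (1 - σ) * (1 - θ) = 1 - θ - s := by rw [hσ]; field_simp
        rw [this]; ring

theorem T_minus {θ s : ℝ} (h0 : 0 < θ) (h1 : θ < 1) (hs1 : s < 1) (hs : 1 - θ < s) :
    ∃ K : ℝ, 0 ≤ K ∧ ∀ (C : Finset ℤ) (n : ℤ → ℝ), (∀ c ∈ C, 0 ≤ n c) → ∀ N R : ℝ, ∑ c ∈ C, n c ≤ N →
      1 ≤ R → (∀ c ∈ C, n c ≤ N / R) → ∀ a : ℤ,
      ∑ c ∈ C, n c ^ θ * (1 + |(a : ℝ) - c|) ^ (-s) ≤ K * (N ^ θ * R ^ (1 - θ - s)) := by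
  have ht : 0 < 1 - θ := by linarith
  set σ := s / (1 - θ) with hσ
  have hσ1 : 1 < σ := by rw [hσ, lt_div_iff₀ ht]; linarith
  have hσs : 0 < σ - 1 := by linarith
  have hs0 : 0 < s := by linarith
  have hs1' : 0 < 1 - s := by linarith
  refine ⟨(2 / (1 - s) + 1) * 3 + (2 / (σ - 1)) ^ (1 - θ), by positivity, ?_⟩
  intro C n hn N R hN hR hlam a
  have hN0' : 0 ≤ ∑ c ∈ C, n c := Finset.sum_nonneg hn
  have hN0 : 0 ≤ N := hN0'.trans hN
  have hR0 : 0 < R := by linarith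
  rw [← Finset.sum_filter_add_sum_filter_not C (fun c : ℤ => |(a : ℝ) - c| ≤ R)]
  have hA : ∑ c ∈ C.filter (fun c : ℤ => |(a : ℝ) - c| ≤ R), n c ^ θ * (1 + |(a : ℝ) - c|) ^ (-s) ≤
      (2 / (1 - s) + 1) * 3 * (N ^ θ * R ^ (1 - θ - s)) := by
    calc _ ≤ ∑ c ∈ C.filter (fun c : ℤ => |(a : ℝ) - c| ≤ R), (N / R) ^ θ * (1 + |(a : ℝ) - c|) ^ (-s) := by
          refine Finset.sum_le_sum fun c hc => ?_
          have hc' := (Finset.mem_filter.1 hc).1
          gcongr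
          · exact hn c hc'
          · exact hlam c hc'
      _ = (N / R) ^ θ * ∑ c ∈ C.filter (fun c : ℤ => |(a : ℝ) - c| ≤ R), (1 + |(a : ℝ) - c|) ^ (-s) := by
          rw [Finset.mul_sum]
      _ ≤ (N / R) ^ θ * ((2 / (1 - s) + 1) * 3 * R ^ (1 - s)) := by
          gcongr
          exact sum_near hs0.le hs1 C a hR
      _ = _ := by
          rw [Real.div_rpow hN0 hR0.le]
          have : R ^ (1 - θ - s) = R ^ (1 - s) / R ^ θ := by
            rw [← Real.rpow_sub hR0]; congr 1; ring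
          rw [this]; ring
  have hB : ∑ c ∈ C.filter (fun c : ℤ => ¬ |(a : ℝ) - c| ≤ R), n c ^ θ * (1 + |(a : ℝ) - c|) ^ (-s) ≤
      (2 / (σ - 1)) ^ (1 - θ) * (N ^ θ * R ^ (1 - θ - s)) := by
    refine (holder_theta _ n _ (fun c hc => hn c (Finset.mem_filter.1 hc).1)
      (fun c _ => by positivity) h0 h1).trans ?_
    have e1 : ∀ c ∈ C.filter (fun c : ℤ => ¬ |(a : ℝ) - c| ≤ R),
        ((1 + |(a : ℝ) - c|) ^ (-s)) ^ (1 / (1 - θ)) = (1 + |(a : ℝ) - c|) ^ (-σ) := by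
      intro c _
      rw [← Real.rpow_mul (by positivity)]
      congr 1; rw [hσ]; ring
    rw [Finset.sum_congr rfl e1]
    calc _ ≤ N ^ θ * (2 / (σ - 1) * R ^ (1 - σ)) ^ (1 - θ) := by
          gcongr
          · exact Finset.sum_nonneg fun c hc => hn c (Finset.mem_filter.1 hc).1
          · refine le_trans ?_ hN
            exact Finset.sum_le_sum_of_subset_of_nonneg (Finset.filter_subset _ _) fun c hc _ => hn c hc
          · exact sum_far hσ1 C a hR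
      _ = _ := by
          rw [Real.mul_rpow (by positivity) (by positivity), ← Real.rpow_mul hR0.le]
          have : (1 - σ) * (1 - θ) = 1 - θ - s := by rw [hσ]; field_simp
          rw [this]; ring
  calc _ ≤ (2 / (1 - s) + 1) * 3 * (N ^ θ * R ^ (1 - θ - s)) +
        (2 / (σ - 1)) ^ (1 - θ) * (N ^ θ * R ^ (1 - θ - s)) := add_le_add hA hB
    _ = _ := by ring

/-- the sum over the rich fibres -/
theorem sum_rich {ρ κ h : ℝ} (hρ0 : 0 < ρ) (hρ1 : ρ < 1) (hκ : ρ + ρ * h / (1 - ρ) < κ) (hh0 : 0 < h)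
    (hh1 : h < ρ) :
    ∃ K : ℝ, 0 ≤ K ∧ ∀ (C : Finset ℤ) (n : ℤ → ℝ) (N : ℝ), 1 ≤ N → (∀ c ∈ C, N ^ (1 - ρ) ≤ n c) →
      ∑ c ∈ C, n c ≤ N →
      ∑ a ∈ C, n a * (∑ c ∈ C, n c ^ (1 - (ρ + ρ * h / (1 - ρ)) / κ) *
        (1 + |(a : ℝ) - c|) ^ (-((ρ - h) / κ))) ^ κ ≤ K * N ^ (1 + κ - ρ) := by
  have h1ρ : 0 < 1 - ρ := by linarith
  have hx0 : 0 < ρ * h / (1 - ρ) := by positivity
  have hκ0 : 0 < κ := by linarith
  set x := ρ * h / (1 - ρ) with hx
  obtain ⟨K, hK0, hK⟩ := T_plus (θ := 1 - (ρ + x) / κ) (s := (ρ - h) / κ)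
    (by rw [sub_pos, div_lt_one hκ0]; exact hκ) (by rw [sub_lt_self_iff]; positivity)
    (div_nonneg (by linarith) hκ0.le)
    (by rw [sub_sub_cancel]; gcongr; linarith)
  refine ⟨K ^ κ, by positivity, ?_⟩
  intro C n N hN hn hsum
  have hN0 : 0 < N := by linarith
  have hn0 : ∀ c ∈ C, 0 ≤ n c := fun c hc => (Real.rpow_nonneg hN0.le _).trans (hn c hc)
  have hcard : (C.card : ℝ) ≤ N ^ ρ := by
    have h2 : (C.card : ℝ) * N ^ (1 - ρ) ≤ N := by
      calc (C.card : ℝ) * N ^ (1 - ρ) = ∑ c ∈ C, N ^ (1 - ρ) := by rw [Finset.sum_const, nsmul_eq_mul]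
        _ ≤ ∑ c ∈ C, n c := Finset.sum_le_sum hn
        _ ≤ N := hsum
    have h3 : N = N ^ ρ * N ^ (1 - ρ) := by
      rw [← Real.rpow_add hN0]; simp
    rw [h3] at h2
    conv at h2 => lhs; rw [← h3]
    exact le_of_mul_le_mul_right h2 (by positivity)
  have hT : ∀ a : ℤ, 0 ≤ ∑ c ∈ C, n c ^ (1 - (ρ + x) / κ) * (1 + |(a : ℝ) - c|) ^ (-((ρ - h) / κ)) := by
    intro a
    refine Finset.sum_nonneg fun c hc => ?_
    have := hn0 c hc
    positivity
  calc _ ≤ ∑ a ∈ C, n a * (K * (N ^ (1 - (ρ + x) / κ) * (N ^ ρ) ^ (1 - (1 - (ρ + x) / κ) - (ρ - h) / κ))) ^ κ := by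
        refine Finset.sum_le_sum fun a ha => ?_
        have := hn0 a ha
        gcongr
        · exact hT a
        · exact hK C n hn0 N (N ^ ρ) hsum hcard a
    _ = (∑ a ∈ C, n a) * (K ^ κ * N ^ (κ - ρ)) := by
        rw [Finset.sum_mul]
        refine Finset.sum_congr rfl fun a _ => ?_
        congr 1
        rw [Real.mul_rpow hK0 (by positivity), ← Real.rpow_mul hN0.le, ← Real.rpow_add hN0,
          ← Real.rpow_mul hN0.le]
        congr 2
        rw [hx]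
        field_simp
        ring
    _ ≤ N * (K ^ κ * N ^ (κ - ρ)) := by gcongr
    _ = K ^ κ * N ^ (1 + κ - ρ) := by
        rw [show 1 + κ - ρ = 1 + (κ - ρ) by ring, Real.rpow_add hN0, Real.rpow_one]; ring

/-- the sum over the poor fibres -/
theorem sum_poor {ρ κ h : ℝ} (hρ0 : 0 < ρ) (hρ1 : ρ < 1) (hκ : ρ + h < κ) (hh0 : 0 < h) :
    ∃ K : ℝ, 0 ≤ K ∧ ∀ (C : Finset ℤ) (n : ℤ → ℝ) (N : ℝ), 1 ≤ N → (∀ c ∈ C, 0 ≤ n c) →
      (∀ c ∈ C, n c ≤ N ^ (1 - ρ)) → ∑ c ∈ C, n c ≤ N →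
      ∑ a ∈ C, n a ^ (1 + ρ * h / (1 - ρ)) * (∑ c ∈ C, n c ^ (1 - ρ / κ) *
        (1 + |(a : ℝ) - c|) ^ (-((ρ + h) / κ))) ^ κ ≤ K * N ^ (1 + κ - ρ) := by
  have h1ρ : 0 < 1 - ρ := by linarith
  have hx0 : 0 < ρ * h / (1 - ρ) := by positivity
  have hκ0 : 0 < κ := by linarith
  set x := ρ * h / (1 - ρ) with hx
  obtain ⟨K, hK0, hK⟩ := T_minus (θ := 1 - ρ / κ) (s := (ρ + h) / κ)
    (by rw [sub_pos, div_lt_one hκ0]; linarith) (by rw [sub_lt_self_iff]; positivity)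
    (by rw [div_lt_one hκ0]; exact hκ)
    (by rw [sub_sub_cancel]; gcongr; linarith)
  refine ⟨K ^ κ, by positivity, ?_⟩
  intro C n N hN hn0 hn hsum
  have hN0 : 0 < N := by linarith
  have hT : ∀ a : ℤ, 0 ≤ ∑ c ∈ C, n c ^ (1 - ρ / κ) * (1 + |(a : ℝ) - c|) ^ (-((ρ + h) / κ)) := by
    intro a
    refine Finset.sum_nonneg fun c hc => ?_
    have := hn0 c hc
    positivity
  have hR1 : (1 : ℝ) ≤ N ^ ρ := Real.one_le_rpow hN hρ0.le
  have hdiv : N / N ^ ρ = N ^ (1 - ρ) := by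
    rw [Real.rpow_sub hN0, Real.rpow_one]
  calc _ ≤ ∑ a ∈ C, (n a * (N ^ (1 - ρ)) ^ x) *
        (K * (N ^ (1 - ρ / κ) * (N ^ ρ) ^ (1 - (1 - ρ / κ) - (ρ + h) / κ))) ^ κ := by
        refine Finset.sum_le_sum fun a ha => ?_
        have h5 := hn0 a ha
        have h6 : n a ^ (1 + x) ≤ n a * (N ^ (1 - ρ)) ^ x := by
          rw [Real.rpow_one_add' h5 (by linarith)]
          gcongr
          exact hn a ha
        gcongr
        · exact Real.rpow_nonneg (hT a) _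
        · exact hT a
        · exact hK C n hn0 N (N ^ ρ) hsum hR1 (by rw [hdiv]; exact hn) a
    _ = (∑ a ∈ C, n a) * (K ^ κ * N ^ (κ - ρ)) := by
        rw [Finset.sum_mul]
        refine Finset.sum_congr rfl fun a _ => ?_
        rw [mul_assoc]
        congr 1
        have e2 : (K * (N ^ (1 - ρ / κ) * (N ^ ρ) ^ (1 - (1 - ρ / κ) - (ρ + h) / κ))) ^ κ =
            K ^ κ * N ^ ((1 - ρ / κ + ρ * (1 - (1 - ρ / κ) - (ρ + h) / κ)) * κ) := by
          rw [Real.mul_rpow hK0 (by positivity), ← Real.rpow_mul hN0.le, ← Real.rpow_add hN0,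
            ← Real.rpow_mul hN0.le]
        rw [e2, ← Real.rpow_mul hN0.le, mul_left_comm, ← Real.rpow_add hN0]
        congr 2
        rw [hx]
        field_simp
        ring
    _ ≤ N * (K ^ κ * N ^ (κ - ρ)) := by gcongr
    _ = K ^ κ * N ^ (1 + κ - ρ) := by
        rw [show 1 + κ - ρ = 1 + (κ - ρ) by ring, Real.rpow_add hN0, Real.rpow_one]; ring

end Pool.Agent.W768.Tri
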