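import Pool.Agent.W768.Tri2
import Pool.Agent.W768.Tri3

set_option autoImplicit false

/-! The induction step. -/

open MeasureTheory Set Filter Topology ENNReal NNReal

namespace Pool.Agent.W768.Tri

theorem weighted_real {Y : Type*} [MeasurableSpace Y] {μ : Measure Y} [SFinite μ] {K S : ℝ} (hK : 0 ≤ K)
    (hS : 0 ≤ S) (C : Finset ℤ) (β : ℤ → ℝ) (n : ℤ → ℝ) (hn : ∀ a ∈ C, 0 < n a)
    (g : ℤ → ℝ → Y → ℝ≥0∞) (hg : ∀ a, Measurable (fun p : ℝ × Y => g a p.1 p.2))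
    {q p1 p2 θ G B r : ℝ} (hq : 1 < q) (hp : p1.HolderConjugate p2) (he : 1 ≤ (q - 1) * p1)
    (hG0 : 0 ≤ G) (hB0 : 0 ≤ B)
    (hG : ∀ a ∈ C, ∀ t, ∫⁻ z, g a t z ∂μ ≤ ENNReal.ofReal (G * n a))
    (hB : ∀ a ∈ C, ∫⁻ t, ∫⁻ z, g a t z ^ (1 + (q - 1) * p2) ∂μ ∂(τ S) ≤
      ENNReal.ofReal (B * n a ^ (1 + (q - 1) * p2 - r))) :
    ∫⁻ t, ∫⁻ y, ∫⁻ z, (∑ a ∈ C, J K (β a) a t y * g a t z) ^ q ∂μ ∂volume ∂(τ S) ≤
      ENNReal.ofReal ((4 * S * K + 16 * K ^ 2) ^ (1 / p1) * (2 * K * G ^ (p2 - 1) * B) ^ (1 / p2) *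
        ∑ a ∈ C, n a ^ (q - r / p2 - θ * (q - 1)) *
          (∑ c ∈ C, n c ^ θ * (1 + |(a : ℝ) - c|) ^ (-(1 / ((q - 1) * p1)))) ^ (q - 1)) := by
  have hq0 : 0 < q := by linarith
  have hq1 : 0 < q - 1 := by linarith
  have hp1 : 0 < p1 := hp.pos
  have hp2 : 0 < p2 := hp.symm.pos
  have hp21 : 0 < p2 - 1 := by linarith [hp.symm.lt]
  set D : ℝ := 4 * S * K + 16 * K ^ 2 with hD
  have hD0 : 0 ≤ D := by positivity
  have hw : ∀ a ∈ C, 0 < n a ^ θ := fun a ha => Real.rpow_pos_of_pos (hn a ha) _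
  refine (weighted hK hS C β (fun a => ENNReal.ofReal (n a ^ θ))
    (fun a ha => by rw [Ne, ENNReal.ofReal_eq_zero, not_le]; exact hw a ha)
    (fun a _ => ENNReal.ofReal_ne_top) g hg hq hp he).trans ?_
  rw [Finset.mul_sum, ENNReal.ofReal_sum_of_nonneg]
  swap
  · intro a ha
    have h1 := (hn a ha).le
    have h2 : 0 ≤ ∑ c ∈ C, n c ^ θ * (1 + |(a : ℝ) - c|) ^ (-(1 / ((q - 1) * p1))) :=
      Finset.sum_nonneg fun c hc => mul_nonneg (hw c hc).le (by positivity)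
    positivity
  refine Finset.sum_le_sum fun a ha => ?_
  have hna := hn a ha
  have hs0 : 0 ≤ 1 / ((q - 1) * p1) := by positivity
  have e1 : ENNReal.ofReal (n a ^ θ) ^ (-(q - 1)) = ENNReal.ofReal (n a ^ (-(θ * (q - 1)))) := by
    rw [ENNReal.ofReal_rpow_of_pos (hw a ha), ← Real.rpow_mul hna.le]
    congr 2; ring
  have e2 : ∑ c ∈ C, ENNReal.ofReal (n c ^ θ) * ENNReal.ofReal (D / (1 + |(a : ℝ) - c|)) ^
      (1 / ((q - 1) * p1)) = ENNReal.ofReal (D ^ (1 / ((q - 1) * p1)) *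
        ∑ c ∈ C, n c ^ θ * (1 + |(a : ℝ) - c|) ^ (-(1 / ((q - 1) * p1)))) := by
    rw [Finset.mul_sum, ENNReal.ofReal_sum_of_nonneg]
    · refine Finset.sum_congr rfl fun c hc => ?_
      rw [ENNReal.ofReal_rpow_of_nonneg (by positivity) hs0, ← ENNReal.ofReal_mul (hw c hc).le]
      congr 1
      rw [Real.div_rpow hD0 (by positivity), Real.rpow_neg (by positivity)]
      field_simp
    · intro c hc
      have := (hw c hc).le
      positivity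
  have hsum0 : 0 ≤ ∑ c ∈ C, n c ^ θ * (1 + |(a : ℝ) - c|) ^ (-(1 / ((q - 1) * p1))) :=
    Finset.sum_nonneg fun c hc => mul_nonneg (hw c hc).le (by positivity)
  have e3 : ∫⁻ t, (∫⁻ z, g a t z ∂μ) ^ (p2 - 1) * ∫⁻ z, g a t z ^ (1 + (q - 1) * p2) ∂μ ∂(τ S) ≤
      ENNReal.ofReal ((G * n a) ^ (p2 - 1) * (B * n a ^ (1 + (q - 1) * p2 - r))) := by
    calc _ ≤ ∫⁻ t, ENNReal.ofReal (G * n a) ^ (p2 - 1) * ∫⁻ z, g a t z ^ (1 + (q - 1) * p2) ∂μ ∂(τ S) := by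
          refine lintegral_mono fun t => ?_
          have := hG a ha t
          gcongr
      _ = ENNReal.ofReal (G * n a) ^ (p2 - 1) * ∫⁻ t, ∫⁻ z, g a t z ^ (1 + (q - 1) * p2) ∂μ ∂(τ S) := by
          rw [lintegral_const_mul' _ _ (ENNReal.rpow_ne_top_of_nonneg hp21.le ENNReal.ofReal_ne_top)]
      _ ≤ ENNReal.ofReal (G * n a) ^ (p2 - 1) * ENNReal.ofReal (B * n a ^ (1 + (q - 1) * p2 - r)) := by
          gcongr
          exact hB a ha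
      _ = _ := by
          rw [ENNReal.ofReal_rpow_of_nonneg (by positivity) hp21.le, ← ENNReal.ofReal_mul (by positivity)]
  rw [e1, e2]
  calc _ ≤ ENNReal.ofReal (n a ^ (-(θ * (q - 1)))) *
        (ENNReal.ofReal (D ^ (1 / ((q - 1) * p1)) *
          ∑ c ∈ C, n c ^ θ * (1 + |(a : ℝ) - c|) ^ (-(1 / ((q - 1) * p1)))) ^ (q - 1) *
        (ENNReal.ofReal (2 * K) * ENNReal.ofReal ((G * n a) ^ (p2 - 1) *
          (B * n a ^ (1 + (q - 1) * p2 - r)))) ^ (1 / p2)) := by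
        gcongr
    _ = ENNReal.ofReal (n a ^ (-(θ * (q - 1))) * ((D ^ (1 / ((q - 1) * p1)) *
          ∑ c ∈ C, n c ^ θ * (1 + |(a : ℝ) - c|) ^ (-(1 / ((q - 1) * p1)))) ^ (q - 1) *
          ((2 * K) * ((G * n a) ^ (p2 - 1) * (B * n a ^ (1 + (q - 1) * p2 - r)))) ^ (1 / p2))) := by
        rw [← ENNReal.ofReal_mul (p := 2 * K) (by positivity),
          ENNReal.ofReal_rpow_of_nonneg (by positivity) hq1.le,
          ENNReal.ofReal_rpow_of_nonneg (by positivity) (show 0 ≤ 1 / p2 by positivity),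
          mul_assoc, ← ENNReal.ofReal_mul (by positivity), ← ENNReal.ofReal_mul (by positivity)]
    _ ≤ _ := by
        apply ENNReal.ofReal_le_ofReal
        apply le_of_eq
        have f1 : (D ^ (1 / ((q - 1) * p1)) *
            ∑ c ∈ C, n c ^ θ * (1 + |(a : ℝ) - c|) ^ (-(1 / ((q - 1) * p1)))) ^ (q - 1) =
            D ^ (1 / p1) * (∑ c ∈ C, n c ^ θ * (1 + |(a : ℝ) - c|) ^ (-(1 / ((q - 1) * p1)))) ^ (q - 1) := by
          rw [Real.mul_rpow (by positivity) hsum0, ← Real.rpow_mul hD0]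
          congr 2; field_simp
        have f2 : ((2 * K) * ((G * n a) ^ (p2 - 1) * (B * n a ^ (1 + (q - 1) * p2 - r)))) ^ (1 / p2) =
            (2 * K * G ^ (p2 - 1) * B) ^ (1 / p2) * n a ^ (q - r / p2) := by
          rw [Real.mul_rpow hG0 hna.le]
          have : 2 * K * (G ^ (p2 - 1) * n a ^ (p2 - 1) * (B * n a ^ (1 + (q - 1) * p2 - r))) =
              (2 * K * G ^ (p2 - 1) * B) * n a ^ (q * p2 - r) := by
            rw [show q * p2 - r = (p2 - 1) + (1 + (q - 1) * p2 - r) by ring, Real.rpow_add hna]; ring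
          rw [this, Real.mul_rpow (by positivity) (by positivity), ← Real.rpow_mul hna.le]
          congr 2; field_simp
        rw [f1, f2]
        have f3 : n a ^ (q - r / p2 - θ * (q - 1)) = n a ^ (-(θ * (q - 1))) * n a ^ (q - r / p2) := by
          rw [← Real.rpow_add hna]; congr 1; ring
        rw [f3]; ring

/-- rich fibres -/
theorem rich_bound {ρ q K S G h : ℝ} (hρ0 : 0 < ρ) (hρ1 : ρ ≤ 1 / 2) (hK : 0 ≤ K)
    (hS : 0 ≤ S) (hG0 : 0 ≤ G) (hh0 : 0 < h) (hhρ : h < ρ) (hrich : ρ + ρ * h / (1 - ρ) < q - 1)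
    {p2 Qp Bp : ℝ} (hp2 : p2 = 1 / (1 - ρ + h)) (hQp : Qp = 1 + (q - 1) * p2) (hBp0 : 0 ≤ Bp) :
    ∃ D : ℝ, 0 ≤ D ∧ ∀ (Y : Type) [MeasurableSpace Y] (μ : Measure Y) [SFinite μ] (A : Finset ℤ)
        (β n : ℤ → ℝ) (g : ℤ → ℝ → Y → ℝ≥0∞) (N : ℝ), 1 ≤ N → (∀ a ∈ A, N ^ (1 - ρ) ≤ n a) →
        ∑ a ∈ A, n a ≤ N →
        (∀ a, Measurable (fun p : ℝ × Y => g a p.1 p.2)) →
        (∀ a ∈ A, ∀ t, ∫⁻ z, g a t z ∂μ ≤ ENNReal.ofReal (G * n a)) →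
        (∀ a ∈ A, ∫⁻ t, ∫⁻ z, g a t z ^ Qp ∂μ ∂(τ S) ≤ ENNReal.ofReal (Bp * n a ^ (Qp - ρ / (1 - ρ)))) →
        ∫⁻ t, ∫⁻ y, ∫⁻ z, (∑ a ∈ A, J K (β a) a t y * g a t z) ^ q ∂μ ∂volume ∂(τ S) ≤
          ENNReal.ofReal (D * N ^ (q - ρ)) := by
  have hρ2 : 0 < 1 - ρ := by linarith
  have hx0 : 0 < ρ * h / (1 - ρ) := by positivity
  have hpl : 0 < ρ - h := by linarith
  have hpl2 : 0 < 1 - ρ + h := by linarith
  have hq1 : 1 < q := by linarith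
  have hκ0 : 0 < q - 1 := by linarith
  obtain ⟨K1, hK10, hK1⟩ := sum_rich hρ0 (by linarith) hrich hh0 hhρ
  have hp : (1 / (ρ - h)).HolderConjugate p2 := by
    rw [hp2, Real.holderConjugate_iff]
    refine ⟨by rw [lt_div_iff₀ hpl]; linarith, ?_⟩
    field_simp; ring
  subst hQp
  refine ⟨(4 * S * K + 16 * K ^ 2) ^ (1 / (1 / (ρ - h))) * (2 * K * G ^ (p2 - 1) * Bp) ^ (1 / p2) * K1,
    by positivity, ?_⟩
  intro Y _ μ _ A β n g N hN1 hn hsum hg hG hB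
  have hN0 : 0 < N := by linarith
  have hnpos : ∀ a ∈ A, 0 < n a := fun a ha => (Real.rpow_pos_of_pos hN0 _).trans_le (hn a ha)
  refine (weighted_real (θ := 1 - (ρ + ρ * h / (1 - ρ)) / (q - 1)) (r := ρ / (1 - ρ)) hK hS A β n
    hnpos g hg hq1 hp (by rw [mul_one_div, le_div_iff₀ hpl]; linarith) hG0 hBp0 hG hB).trans ?_
  apply ENNReal.ofReal_le_ofReal
  have h1 := hK1 A n N hN1 hn hsum
  rw [mul_assoc _ K1]
  apply mul_le_mul_of_nonneg_left _ (by positivity)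
  rw [show q - ρ = 1 + (q - 1) - ρ by ring]
  refine le_trans (le_of_eq ?_) h1
  refine Finset.sum_congr rfl fun a ha => ?_
  have e1 : q - ρ / (1 - ρ) / p2 - (1 - (ρ + ρ * h / (1 - ρ)) / (q - 1)) * (q - 1) = 1 := by
    rw [hp2]; field_simp; ring
  have e2 : 1 / ((q - 1) * (1 / (ρ - h))) = (ρ - h) / (q - 1) := by field_simp
  rw [e1, e2, Real.rpow_one]

/-- poor fibres -/
theorem poor_bound {ρ q K S G h : ℝ} (hρ0 : 0 < ρ) (hρ1 : ρ ≤ 1 / 2) (hK : 0 ≤ K)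
    (hS : 0 ≤ S) (hG0 : 0 ≤ G) (hh0 : 0 < h) (hhρ : h < ρ) (hpoor : ρ + h < q - 1)
    {p2 Qm Bm : ℝ} (hp2 : p2 = 1 / (1 - ρ - h)) (hQm : Qm = 1 + (q - 1) * p2) (hBm0 : 0 ≤ Bm) :
    ∃ D : ℝ, 0 ≤ D ∧ ∀ (Y : Type) [MeasurableSpace Y] (μ : Measure Y) [SFinite μ] (A : Finset ℤ)
        (β n : ℤ → ℝ) (g : ℤ → ℝ → Y → ℝ≥0∞) (N : ℝ), 1 ≤ N → (∀ a ∈ A, 0 < n a) →
        (∀ a ∈ A, n a ≤ N ^ (1 - ρ)) →
        ∑ a ∈ A, n a ≤ N →
        (∀ a, Measurable (fun p : ℝ × Y => g a p.1 p.2)) →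
        (∀ a ∈ A, ∀ t, ∫⁻ z, g a t z ∂μ ≤ ENNReal.ofReal (G * n a)) →
        (∀ a ∈ A, ∫⁻ t, ∫⁻ z, g a t z ^ Qm ∂μ ∂(τ S) ≤ ENNReal.ofReal (Bm * n a ^ (Qm - ρ / (1 - ρ)))) →
        ∫⁻ t, ∫⁻ y, ∫⁻ z, (∑ a ∈ A, J K (β a) a t y * g a t z) ^ q ∂μ ∂volume ∂(τ S) ≤
          ENNReal.ofReal (D * N ^ (q - ρ)) := by
  have hρ2 : 0 < 1 - ρ := by linarith
  have hx0 : 0 < ρ * h / (1 - ρ) := by positivity
  have hmi : 0 < 1 - ρ - h := by linarith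
  have hmi2 : 0 < ρ + h := by linarith
  have hq1 : 1 < q := by linarith
  have hκ0 : 0 < q - 1 := by linarith
  obtain ⟨K2, hK20, hK2⟩ := sum_poor (κ := q - 1) hρ0 (by linarith) hpoor hh0
  have hp : (1 / (ρ + h)).HolderConjugate p2 := by
    rw [hp2, Real.holderConjugate_iff]
    refine ⟨by rw [lt_div_iff₀ hmi2]; linarith, ?_⟩
    field_simp; ring
  subst hQm
  refine ⟨(4 * S * K + 16 * K ^ 2) ^ (1 / (1 / (ρ + h))) * (2 * K * G ^ (p2 - 1) * Bm) ^ (1 / p2) * K2,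
    by positivity, ?_⟩
  intro Y _ μ _ A β n g N hN1 hnpos hn hsum hg hG hB
  have hN0 : 0 < N := by linarith
  refine (weighted_real (θ := 1 - ρ / (q - 1)) (r := ρ / (1 - ρ)) hK hS A β n
    hnpos g hg hq1 hp (by rw [mul_one_div, le_div_iff₀ hmi2]; linarith) hG0 hBm0 hG hB).trans ?_
  apply ENNReal.ofReal_le_ofReal
  have h1 := hK2 A n N hN1 (fun a ha => (hnpos a ha).le) hn hsum
  rw [mul_assoc _ K2]
  apply mul_le_mul_of_nonneg_left _ (by positivity)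
  rw [show q - ρ = 1 + (q - 1) - ρ by ring]
  refine le_trans (le_of_eq ?_) h1
  refine Finset.sum_congr rfl fun a ha => ?_
  have e1 : q - ρ / (1 - ρ) / p2 - (1 - ρ / (q - 1)) * (q - 1) = 1 + ρ * h / (1 - ρ) := by
    rw [hp2]; field_simp; ring
  have e2 : 1 / ((q - 1) * (1 / (ρ + h))) = (ρ + h) / (q - 1) := by field_simp
  rw [e1, e2]

theorem triple_add {Y : Type*} [MeasurableSpace Y] (μ : Measure Y) [SFinite μ] (ν : Measure ℝ)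
    (F G : (ℝ × ℝ) × Y → ℝ≥0∞) (hF : Measurable F) (c : ℝ≥0∞) (hc : c ≠ ⊤) :
    ∫⁻ t, ∫⁻ y, ∫⁻ z, c * (F ((t, y), z) + G ((t, y), z)) ∂μ ∂volume ∂ν =
      c * (∫⁻ t, ∫⁻ y, ∫⁻ z, F ((t, y), z) ∂μ ∂volume ∂ν + ∫⁻ t, ∫⁻ y, ∫⁻ z, G ((t, y), z) ∂μ ∂volume ∂ν) := by
  have h1 : Measurable (fun p : ℝ × ℝ => ∫⁻ z, F (p, z) ∂μ) := hF.lintegral_prod_right'
  have h2 : Measurable (fun t : ℝ => ∫⁻ y, ∫⁻ z, F ((t, y), z) ∂μ) := h1.lintegral_prod_right'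
  rw [← lintegral_add_left h2, ← lintegral_const_mul' _ _ hc]
  refine lintegral_congr fun t => ?_
  have h3 : Measurable (fun y : ℝ => ∫⁻ z, F ((t, y), z) ∂μ) := h1.comp measurable_prodMk_left
  rw [← lintegral_add_left h3, ← lintegral_const_mul' _ _ hc]
  refine lintegral_congr fun y => ?_
  have h4 : Measurable (fun z : Y => F ((t, y), z)) := hF.comp measurable_prodMk_left
  rw [← lintegral_add_left h4, ← lintegral_const_mul' _ _ hc]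

/-- splitting the sum -/
theorem split_add {K S q : ℝ} (hq1 : 1 ≤ q) {Y : Type*} [MeasurableSpace Y] (μ : Measure Y) [SFinite μ]
    (A : Finset ℤ) (β : ℤ → ℝ) (g : ℤ → ℝ → Y → ℝ≥0∞)
    (hg : ∀ a, Measurable (fun p : ℝ × Y => g a p.1 p.2)) (P : ℤ → Prop) [DecidablePred P] :
    ∫⁻ t, ∫⁻ y, ∫⁻ z, (∑ a ∈ A, J K (β a) a t y * g a t z) ^ q ∂μ ∂volume ∂(τ S) ≤
      2 ^ (q - 1) * (∫⁻ t, ∫⁻ y, ∫⁻ z, (∑ a ∈ A with P a, J K (β a) a t y * g a t z) ^ q ∂μ ∂volume ∂(τ S) +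
        ∫⁻ t, ∫⁻ y, ∫⁻ z, (∑ a ∈ A with ¬ P a, J K (β a) a t y * g a t z) ^ q
          ∂μ ∂volume ∂(τ S)) := by
  have hm3 : ∀ a : ℤ, Measurable (fun p : (ℝ × ℝ) × Y => J K (β a) a p.1.1 p.1.2 * g a p.1.1 p.2) := fun a =>
    ((J_measurable K (β a) a).comp measurable_fst).mul
      ((hg a).comp ((measurable_fst.comp measurable_fst).prodMk measurable_snd))
  have hF : Measurable (fun p : (ℝ × ℝ) × Y =>
      (∑ a ∈ A with P a, J K (β a) a p.1.1 p.1.2 * g a p.1.1 p.2) ^ q) :=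
    (Finset.measurable_fun_sum _ fun a _ => hm3 a).pow_const _
  have e2 : (2 : ℝ≥0∞) ^ (q - 1) ≠ ⊤ :=
    ENNReal.rpow_ne_top_of_nonneg (by linarith) ENNReal.ofNat_ne_top
  refine le_trans ?_ (le_of_eq (triple_add μ (τ S) (fun p : (ℝ × ℝ) × Y =>
      (∑ a ∈ A with P a, J K (β a) a p.1.1 p.1.2 * g a p.1.1 p.2) ^ q) (fun p : (ℝ × ℝ) × Y =>
      (∑ a ∈ A with ¬ P a, J K (β a) a p.1.1 p.1.2 * g a p.1.1 p.2) ^ q) hF _ e2))
  refine lintegral_mono fun t => lintegral_mono fun y => lintegral_mono fun z => ?_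
  simp only
  rw [← Finset.sum_filter_add_sum_filter_not A P]
  exact ENNReal.rpow_add_le_mul_rpow_add_rpow _ _ hq1

theorem step_core {ρ q K S G : ℝ} (hρ0 : 0 < ρ) (hρ1 : ρ ≤ 1 / 2) (hq : 1 + ρ < q) (hK : 0 ≤ K)
    (hS : 0 ≤ S) (hG0 : 0 ≤ G) :
    ∃ Qp Qm : ℝ, 1 + ρ / (1 - ρ) < Qp ∧ 1 + ρ / (1 - ρ) < Qm ∧ ∀ Bp Bm : ℝ, 0 ≤ Bp → 0 ≤ Bm →
      ∃ D : ℝ, 0 ≤ D ∧ ∀ (Y : Type) [MeasurableSpace Y] (μ : Measure Y) [SFinite μ] (A : Finset ℤ)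
        (β n : ℤ → ℝ) (g : ℤ → ℝ → Y → ℝ≥0∞), (∀ a ∈ A, 1 ≤ n a) →
        (∀ a, Measurable (fun p : ℝ × Y => g a p.1 p.2)) →
        (∀ a ∈ A, ∀ t, ∫⁻ z, g a t z ∂μ ≤ ENNReal.ofReal (G * n a)) →
        (∀ a ∈ A, ∫⁻ t, ∫⁻ z, g a t z ^ Qp ∂μ ∂(τ S) ≤ ENNReal.ofReal (Bp * n a ^ (Qp - ρ / (1 - ρ)))) →
        (∀ a ∈ A, ∫⁻ t, ∫⁻ z, g a t z ^ Qm ∂μ ∂(τ S) ≤ ENNReal.ofReal (Bm * n a ^ (Qm - ρ / (1 - ρ)))) →
        ∫⁻ t, ∫⁻ y, ∫⁻ z, (∑ a ∈ A, J K (β a) a t y * g a t z) ^ q ∂μ ∂volume ∂(τ S) ≤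
          ENNReal.ofReal (D * (∑ a ∈ A, n a) ^ (q - ρ)) := by
  have hρ2 : 0 < 1 - ρ := by linarith
  have hκρ : 0 < q - 1 - ρ := by linarith
  have hq1 : 1 < q := by linarith
  have hκ0 : 0 < q - 1 := by linarith
  obtain ⟨h, hh0, hhρ, hhκ⟩ : ∃ h : ℝ, 0 < h ∧ h < ρ ∧ h < q - 1 - ρ :=
    ⟨min ρ (q - 1 - ρ) / 2, by positivity, by
      have := min_le_left ρ (q - 1 - ρ); linarith, by
      have := min_le_right ρ (q - 1 - ρ); linarith⟩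
  have hx : ρ * h / (1 - ρ) ≤ h := by
    rw [div_le_iff₀ hρ2]; nlinarith
  have hx0 : 0 < ρ * h / (1 - ρ) := by positivity
  have hmi : 0 < 1 - ρ - h := by linarith
  have hpl2 : 0 < 1 - ρ + h := by linarith
  have hrich : ρ + ρ * h / (1 - ρ) < q - 1 := by linarith
  have hpoor : ρ + h < q - 1 := by linarith
  refine ⟨1 + (q - 1) * (1 / (1 - ρ + h)), 1 + (q - 1) * (1 / (1 - ρ - h)), ?_, ?_, ?_⟩
  · have : ρ / (1 - ρ) < (q - 1) * (1 / (1 - ρ + h)) := by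
      rw [mul_one_div, div_lt_div_iff₀ hρ2 hpl2]
      have e : (ρ + ρ * h / (1 - ρ)) * (1 - ρ) = ρ * (1 - ρ + h) := by field_simp
      rw [← e]
      exact mul_lt_mul_of_pos_right hrich hρ2
    linarith
  · have : ρ / (1 - ρ) < (q - 1) * (1 / (1 - ρ - h)) := by
      rw [mul_one_div, div_lt_div_iff₀ hρ2 hmi]
      nlinarith [mul_pos hρ0 hh0]
    linarith
  intro Bp Bm hBp0 hBm0
  obtain ⟨D1, hD10, hD1⟩ := rich_bound hρ0 hρ1 hK hS hG0 hh0 hhρ hrich rfl rfl hBp0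
  obtain ⟨D2, hD20, hD2⟩ := poor_bound hρ0 hρ1 hK hS hG0 hh0 hhρ hpoor rfl rfl hBm0
  refine ⟨2 ^ (q - 1) * (D1 + D2), by positivity, ?_⟩
  intro Y _ μ _ A β n g hn hg hG hBp hBm
  rcases A.eq_empty_or_nonempty with hA | hA
  · subst hA
    simp [ENNReal.zero_rpow_of_pos (show 0 < q by linarith)]
  set N := ∑ a ∈ A, n a with hN
  have hN1 : 1 ≤ N := by
    obtain ⟨a, ha⟩ := hA
    exact (hn a ha).trans (Finset.single_le_sum (f := n) (fun b hb => by linarith [hn b hb]) ha)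
  have hN0 : 0 < N := by linarith
  have hmp : ∀ a ∈ A.filter (fun a => N ^ (1 - ρ) ≤ n a), a ∈ A := fun a ha => (Finset.mem_filter.1 ha).1
  have hmm : ∀ a ∈ A.filter (fun a => ¬ N ^ (1 - ρ) ≤ n a), a ∈ A := fun a ha => (Finset.mem_filter.1 ha).1
  have hsum : ∀ C ⊆ A, ∑ a ∈ C, n a ≤ N := fun C hC =>
    Finset.sum_le_sum_of_subset_of_nonneg hC fun a ha _ => by linarith [hn a ha]
  have hP := hD1 Y μ (A.filter (fun a => N ^ (1 - ρ) ≤ n a)) β n g N hN1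
    (fun c hc => (Finset.mem_filter.1 hc).2) (hsum _ (Finset.filter_subset _ _)) hg
    (fun a ha => hG a (hmp a ha)) (fun a ha => hBp a (hmp a ha))
  have hM := hD2 Y μ (A.filter (fun a => ¬ N ^ (1 - ρ) ≤ n a)) β n g N hN1
    (fun a ha => by linarith [hn a (hmm a ha)])
    (fun c hc => (not_le.1 (Finset.mem_filter.1 hc).2).le) (hsum _ (Finset.filter_subset _ _)) hg
    (fun a ha => hG a (hmm a ha)) (fun a ha => hBm a (hmm a ha))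
  refine (split_add (K := K) (S := S) hq1.le μ A β g hg (fun a => N ^ (1 - ρ) ≤ n a)).trans ?_
  calc _ ≤ 2 ^ (q - 1) * (ENNReal.ofReal (D1 * N ^ (q - ρ)) + ENNReal.ofReal (D2 * N ^ (q - ρ))) := by
        gcongr
    _ = ENNReal.ofReal (2 ^ (q - 1) * (D1 + D2) * N ^ (q - ρ)) := by
        rw [← ENNReal.ofReal_add (by positivity) (by positivity)]
        have : (2 : ℝ≥0∞) ^ (q - 1) = ENNReal.ofReal (2 ^ (q - 1)) := by
          rw [← ENNReal.ofReal_rpow_of_pos (by norm_num)]; simp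
        rw [this, ← ENNReal.ofReal_mul (by positivity)]
        congr 1; ring

end Pool.Agent.W768.Tri
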