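import Pool.Agent.W768.Tri4

set_option autoImplicit false

/-! The induction on the dimension. -/

open MeasureTheory Set Filter Topology ENNReal NNReal

namespace Pool.Agent.W768.Tri

/-- The sum of the indicators of the slanted boxes with integer slopes. -/
noncomputable def FV {m : ℕ} (K : ℝ) (V : Finset (Fin m → ℤ)) (β : (Fin m → ℤ) → Fin m → ℝ) (t : ℝ)
    (y : Fin m → ℝ) : ℝ≥0∞ := ∑ c ∈ V, ∏ k, J K (β c k) (c k) t (y k)

/-- the `k`-th position depends on the first `k` slopes only -/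
def Triang {m : ℕ} (V : Finset (Fin m → ℤ)) (β : (Fin m → ℤ) → Fin m → ℝ) : Prop :=
  ∀ c ∈ V, ∀ c' ∈ V, ∀ k, (∀ l ≤ k, c l = c' l) → β c k = β c' k

theorem FV_measurable {m : ℕ} (K : ℝ) (V : Finset (Fin m → ℤ)) (β : (Fin m → ℤ) → Fin m → ℝ) :
    Measurable (fun p : ℝ × (Fin m → ℝ) => FV K V β p.1 p.2) := by
  unfold FV
  refine Finset.measurable_fun_sum _ fun c _ => Finset.measurable_fun_prod _ fun k _ => ?_
  exact (J_measurable K (β c k) (c k)).comp
    (measurable_fst.prodMk ((measurable_pi_apply k).comp measurable_snd))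

theorem FV_mass {m : ℕ} {K : ℝ} (hK : 0 ≤ K) (V : Finset (Fin m → ℤ)) (β : (Fin m → ℤ) → Fin m → ℝ)
    (t : ℝ) : ∫⁻ y, FV K V β t y = ENNReal.ofReal ((2 * K) ^ m * V.card) := by
  unfold FV
  have hm : ∀ c : Fin m → ℤ, Measurable (fun y : Fin m → ℝ => ∏ k, J K (β c k) (c k) t (y k)) := by
    intro c
    refine Finset.measurable_fun_prod _ fun k _ => ?_
    exact (J_measurable K (β c k) (c k)).comp (measurable_const.prodMk (measurable_pi_apply k))
  rw [lintegral_finsetSum _ fun c _ => hm c]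
  have h1 : ∀ c : Fin m → ℤ, ∫⁻ y : Fin m → ℝ, ∏ k, J K (β c k) (c k) t (y k) =
      ENNReal.ofReal ((2 * K) ^ m) := by
    intro c
    have h2 : ∀ y : Fin m → ℝ, ∏ k, J K (β c k) (c k) t (y k) =
        (Set.pi univ fun k => Icc (β c k + t * c k - K) (β c k + t * c k + K)).indicator
          (fun _ => (1 : ℝ≥0∞)) y := by
      intro y
      by_cases hy : ∀ k, |y k - β c k - t * c k| ≤ K
      · rw [indicator_of_mem]
        · apply Finset.prod_eq_one
          intro k _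
          unfold J; rw [if_pos (hy k)]
        · intro k _
          have := hy k
          rw [abs_le] at this
          constructor <;> linarith [this.1, this.2]
      · rw [indicator_of_notMem]
        · push Not at hy
          obtain ⟨k, hk⟩ := hy
          apply Finset.prod_eq_zero (Finset.mem_univ k)
          unfold J; rw [if_neg (not_le.2 hk)]
        · intro hmem
          apply hy
          intro k
          have := hmem k (mem_univ k)
          rw [abs_le]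
          constructor <;> linarith [this.1, this.2]
    simp_rw [h2]
    rw [lintegral_indicator (MeasurableSet.univ_pi fun k => measurableSet_Icc), setLIntegral_const,
      one_mul, volume_pi_pi]
    simp_rw [Real.volume_Icc]
    have h3 : ∀ k, β c k + t * (c k : ℝ) + K - (β c k + t * c k - K) = 2 * K := fun k => by ring
    simp_rw [h3]
    rw [Finset.prod_const, Finset.card_univ, Fintype.card_fin, ENNReal.ofReal_pow (by positivity)]
  simp_rw [h1]
  rw [Finset.sum_const, nsmul_eq_mul, ENNReal.ofReal_mul (by positivity), mul_comm, ENNReal.ofReal_natCast]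

theorem base_strips {K S Q : ℝ} (hK : 0 ≤ K) (hS : 0 ≤ S) (hQ : 2 < Q) :
    ∃ B : ℝ, 0 ≤ B ∧ ∀ (C : Finset ℤ) (β : ℤ → ℝ),
      ∫⁻ t, ∫⁻ y, (∑ a ∈ C, J K (β a) a t y) ^ Q ∂volume ∂(τ S) ≤ ENNReal.ofReal (B * (C.card : ℝ) ^ (Q - 1)) := by
  set σ : ℝ := 1 / (Q - 1) with hσ
  have hQ1 : 0 < Q - 1 := by linarith
  have hσ0 : 0 ≤ σ := by positivity
  have hσ1 : σ < 1 := by rw [hσ, div_lt_one hQ1]; linarith
  have hσ2 : 0 < 1 - σ := by linarith
  set D : ℝ := 4 * S * K + 16 * K ^ 2 with hD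
  have hD0 : 0 ≤ D := by positivity
  refine ⟨D * (2 / (1 - σ) + 1) ^ (Q - 1), by positivity, ?_⟩
  intro C β
  rcases C.eq_empty_or_nonempty with hC | hC
  · subst hC
    simp [ENNReal.zero_rpow_of_pos (show 0 < Q by linarith)]
  have hcard : (0 : ℝ) < C.card := by
    have := hC.card_pos
    exact_mod_cast this
  have hJm : ∀ a : ℤ, Measurable (fun p : ℝ × ℝ => J K (β a) a p.1 p.2) := fun a => J_measurable _ _ _
  have hWm : Measurable (fun p : ℝ × ℝ => (∑ c ∈ C, (1 : ℝ≥0∞) * J K (β c) c p.1 p.2) ^ (Q - 1)) :=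
    (Finset.measurable_fun_sum _ fun c _ => (hJm c).const_mul _).pow_const _
  have hJW : ∀ a : ℤ, Measurable (fun p : ℝ × ℝ => J K (β a) a p.1 p.2 *
      (∑ c ∈ C, (1 : ℝ≥0∞) * J K (β c) c p.1 p.2) ^ (Q - 1)) := fun a => (hJm a).mul hWm
  have h1 : ∀ t y, (∑ a ∈ C, J K (β a) a t y) ^ Q =
      ∑ a ∈ C, J K (β a) a t y * (∑ c ∈ C, (1 : ℝ≥0∞) * J K (β c) c t y) ^ (Q - 1) := by
    intro t y
    simp only [one_mul]
    rw [← Finset.sum_mul]
    conv_lhs => rw [show Q = 1 + (Q - 1) by ring]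
    rw [ENNReal.rpow_add_of_nonneg _ _ zero_le_one hQ1.le, ENNReal.rpow_one]
  simp_rw [h1]
  have h2 : ∫⁻ t, ∫⁻ y, ∑ a ∈ C, J K (β a) a t y * (∑ c ∈ C, (1 : ℝ≥0∞) * J K (β c) c t y) ^ (Q - 1)
      ∂volume ∂(τ S) = ∑ a ∈ C, ∫⁻ t, ∫⁻ y, J K (β a) a t y *
        (∑ c ∈ C, (1 : ℝ≥0∞) * J K (β c) c t y) ^ (Q - 1) ∂volume ∂(τ S) := by
    rw [← lintegral_finsetSum _ fun a _ => (hJW a).lintegral_prod_right']
    refine lintegral_congr fun t => ?_
    have hJt : ∀ a : ℤ, Measurable (fun y : ℝ => J K (β a) a t y *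
        (∑ c ∈ C, (1 : ℝ≥0∞) * J K (β c) c t y) ^ (Q - 1)) := fun a => (hJW a).comp measurable_prodMk_left
    exact lintegral_finsetSum _ fun a _ => hJt a
  rw [h2]
  have h3 : ∀ a ∈ C, ∫⁻ t, ∫⁻ y, J K (β a) a t y *
        (∑ c ∈ C, (1 : ℝ≥0∞) * J K (β c) c t y) ^ (Q - 1) ∂volume ∂(τ S) ≤
        ENNReal.ofReal (D * (2 / (1 - σ) + 1) ^ (Q - 1) * (C.card : ℝ) ^ (Q - 2)) := by
    intro a _
    have h4 := strip_sum hK hS C β (fun _ => 1) a (e := Q - 1) (by linarith)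
    have h5 : ∑ c ∈ C, (1 : ℝ≥0∞) * ENNReal.ofReal (D / (1 + |(a : ℝ) - c|)) ^ (1 / (Q - 1)) ≤
        ENNReal.ofReal (D ^ σ * ((2 / (1 - σ) + 1) * (C.card : ℝ) ^ (1 - σ))) := by
      have h6 := mul_le_mul_of_nonneg_left (sum_card hσ0 hσ1 C a) (Real.rpow_nonneg hD0 σ)
      refine le_trans (le_of_eq ?_) (ENNReal.ofReal_le_ofReal h6)
      rw [Finset.mul_sum, ENNReal.ofReal_sum_of_nonneg fun c _ => by positivity]
      refine Finset.sum_congr rfl fun c _ => ?_
      rw [one_mul, ENNReal.ofReal_rpow_of_nonneg (by positivity) (by positivity),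
        Real.div_rpow hD0 (by positivity), Real.rpow_neg (by positivity), div_eq_mul_inv]
    have h7 := h4.trans h5
    have h8 : ∀ X : ℝ≥0∞, X = (X ^ (1 / (Q - 1))) ^ (Q - 1) := by
      intro X
      rw [← ENNReal.rpow_mul, one_div_mul_cancel hQ1.ne', ENNReal.rpow_one]
    rw [h8 (∫⁻ t, ∫⁻ y, J K (β a) a t y *
        (∑ c ∈ C, (1 : ℝ≥0∞) * J K (β c) c t y) ^ (Q - 1) ∂volume ∂(τ S))]
    refine (ENNReal.rpow_le_rpow h7 hQ1.le).trans (le_of_eq ?_)
    have p1 : 0 ≤ D ^ σ := Real.rpow_nonneg hD0 _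
    have p2 : (0 : ℝ) ≤ 2 / (1 - σ) + 1 := add_nonneg (div_nonneg zero_le_two hσ2.le) zero_le_one
    have p3 : (0 : ℝ) ≤ (C.card : ℝ) ^ (1 - σ) := Real.rpow_nonneg hcard.le _
    rw [ENNReal.ofReal_rpow_of_nonneg (mul_nonneg p1 (mul_nonneg p2 p3)) hQ1.le]
    congr 1
    rw [Real.mul_rpow p1 (mul_nonneg p2 p3), ← Real.rpow_mul hD0,
      Real.mul_rpow p2 p3, ← Real.rpow_mul hcard.le]
    have e1 : σ * (Q - 1) = 1 := by rw [hσ]; field_simp
    have e2 : (1 - σ) * (Q - 1) = Q - 2 := by rw [sub_mul, e1]; ring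
    rw [e1, e2, Real.rpow_one]; ring
  refine (Finset.sum_le_sum h3).trans (le_of_eq ?_)
  rw [Finset.sum_const, nsmul_eq_mul, ← ENNReal.ofReal_natCast, ← ENNReal.ofReal_mul (by positivity)]
  congr 1
  rw [show Q - 1 = 1 + (Q - 2) by ring, Real.rpow_add hcard, Real.rpow_one]
  ring

theorem FV_base {K S Q : ℝ} (hK : 0 ≤ K) (hS : 0 ≤ S) (hQ : 2 < Q) :
    ∃ B : ℝ, 0 ≤ B ∧ ∀ (V : Finset (Fin 1 → ℤ)) (β : (Fin 1 → ℤ) → Fin 1 → ℝ),
      ∫⁻ t, ∫⁻ y, FV K V β t y ^ Q ∂volume ∂(τ S) ≤ ENNReal.ofReal (B * (V.card : ℝ) ^ (Q - 1)) := by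
  obtain ⟨B, hB0, hB⟩ := base_strips hK hS hQ
  refine ⟨B, hB0, ?_⟩
  intro V β
  set C := V.image (fun c => c 0) with hC
  have hinj : ∀ c ∈ V, ∀ c' ∈ V, c 0 = c' 0 → c = c' := by
    intro c _ c' _ h
    funext k
    rw [Fin.eq_zero k]; exact h
  have hcard : C.card = V.card := Finset.card_image_of_injOn fun c hc c' hc' h => hinj c hc c' hc' h
  have h1 : ∀ (t : ℝ) (y : Fin 1 → ℝ), FV K V β t y =
      ∑ a ∈ C, J K ((fun a : ℤ => β (fun _ => a) 0) a) a t (y 0) := by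
    intro t y
    unfold FV
    rw [hC, Finset.sum_image fun c hc c' hc' h => hinj c hc c' hc' h]
    refine Finset.sum_congr rfl fun c _ => ?_
    rw [Fin.prod_univ_one]
    have : (fun _ : Fin 1 => c 0) = c := by
      funext k; rw [Fin.eq_zero k]
    simp only [this]
  have h2 := hB C (fun a : ℤ => β (fun _ => a) 0)
  rw [hcard] at h2
  refine le_trans (le_of_eq ?_) h2
  refine lintegral_congr fun t => ?_
  have h3 := (volume_preserving_funUnique (Fin 1) ℝ).lintegral_comp_emb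
    (MeasurableEquiv.funUnique (Fin 1) ℝ).measurableEmbedding
    (fun y => (∑ a ∈ C, J K ((fun a : ℤ => β (fun _ => a) 0) a) a t y) ^ Q)
  rw [← h3]
  refine lintegral_congr fun y => ?_
  rw [h1]
  rfl

end Pool.Agent.W768.Tri
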