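import Pool.Agent.W768.Tri5

set_option autoImplicit false

/-! The induction on the dimension, conclusion. -/

open MeasureTheory Set Filter Topology ENNReal NNReal

namespace Pool.Agent.W768.Tri

theorem lint_cons {m : ℕ} (F : (Fin (m + 1) → ℝ) → ℝ≥0∞) (hF : Measurable F) :
    ∫⁻ y, F y = ∫⁻ y0 : ℝ, ∫⁻ z : Fin m → ℝ, F (Fin.cons y0 z) := by
  have h := volume_preserving_piFinSuccAbove (fun _ : Fin (m + 1) => ℝ) 0
  have h2 := (h.symm (MeasurableEquiv.piFinSuccAbove (fun _ : Fin (m + 1) => ℝ) 0)).lintegral_comp_emb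
    (MeasurableEquiv.piFinSuccAbove (fun _ : Fin (m + 1) => ℝ) 0).symm.measurableEmbedding F
  rw [← h2]
  have h3 : Measurable (fun p : ℝ × (Fin m → ℝ) =>
      F ((MeasurableEquiv.piFinSuccAbove (fun _ : Fin (m + 1) => ℝ) 0).symm p)) :=
    hF.comp (MeasurableEquiv.measurable _)
  have h4 := lintegral_prod (μ := (volume : Measure ℝ)) (ν := (volume : Measure (Fin m → ℝ))) _ h3.aemeasurable
  refine h4.trans ?_
  refine lintegral_congr fun y0 => lintegral_congr fun z => ?_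
  congr 1
  funext k
  refine Fin.cases ?_ (fun j => ?_) k
  · simp [MeasurableEquiv.piFinSuccAbove, Fin.insertNthEquiv]
  · simp [MeasurableEquiv.piFinSuccAbove, Fin.insertNthEquiv]

/-- fibre of `V` over the first slope -/
noncomputable def fib {m : ℕ} (V : Finset (Fin (m + 1) → ℤ)) (a : ℤ) : Finset (Fin m → ℤ) :=
  (V.filter (fun c => c 0 = a)).image Fin.tail

theorem fib_inj {m : ℕ} (V : Finset (Fin (m + 1) → ℤ)) (a : ℤ) :
    ∀ c ∈ V.filter (fun c => c 0 = a), ∀ c' ∈ V.filter (fun c => c 0 = a), Fin.tail c = Fin.tail c' → c = c' := by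
  intro c hc c' hc' h
  have h1 := (Finset.mem_filter.1 hc).2
  have h2 := (Finset.mem_filter.1 hc').2
  rw [← Fin.cons_self_tail c, ← Fin.cons_self_tail c', h, h1, h2]

theorem fib_card {m : ℕ} (V : Finset (Fin (m + 1) → ℤ)) (a : ℤ) :
    (fib V a).card = (V.filter (fun c => c 0 = a)).card :=
  Finset.card_image_of_injOn fun c hc c' hc' h => fib_inj V a c hc c' hc' h

theorem fib_sum {m : ℕ} (V : Finset (Fin (m + 1) → ℤ)) :
    ∑ a ∈ V.image (fun c => c 0), ((fib V a).card : ℝ) = V.card := by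
  simp_rw [fib_card]
  rw [← Nat.cast_sum, ← Finset.card_eq_sum_card_fiberwise fun c hc => Finset.mem_image_of_mem _ hc]

theorem FV_cons {m : ℕ} {K : ℝ} {V : Finset (Fin (m + 1) → ℤ)} {β : (Fin (m + 1) → ℤ) → Fin (m + 1) → ℝ}
    (hT : Triang V β) :
    ∃ b : ℤ → ℝ, ∀ (t y0 : ℝ) (z : Fin m → ℝ), FV K V β t (Fin.cons y0 z) =
      ∑ a ∈ V.image (fun c => c 0), J K (b a) a t y0 *
        FV K (fib V a) (fun c' k => β (Fin.cons a c') k.succ) t z := by
  classical
  set b : ℤ → ℝ := fun a => if h : ∃ c ∈ V, c 0 = a then β h.choose 0 else 0 with hb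
  have hb1 : ∀ c ∈ V, b (c 0) = β c 0 := by
    intro c hc
    have h : ∃ c' ∈ V, c' 0 = c 0 := ⟨c, hc, rfl⟩
    simp only [hb]
    rw [dif_pos h]
    apply hT _ h.choose_spec.1 _ hc
    intro l hl
    have : l = 0 := by simpa using hl
    rw [this]; exact h.choose_spec.2
  refine ⟨b, fun t y0 z => ?_⟩
  unfold FV
  rw [← Finset.sum_fiberwise_of_maps_to (g := fun c : Fin (m + 1) → ℤ => c 0)
    (t := V.image (fun c => c 0)) (fun c hc => Finset.mem_image_of_mem _ hc)]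
  refine Finset.sum_congr rfl fun a _ => ?_
  unfold fib
  rw [Finset.sum_image fun c hc c' hc' h => fib_inj V a c hc c' hc' h, Finset.mul_sum]
  refine Finset.sum_congr rfl fun c hc => ?_
  obtain ⟨hc1, hc2⟩ := Finset.mem_filter.1 hc
  rw [Fin.prod_univ_succ, Fin.cons_zero, ← hb1 c hc1, hc2]
  congr 1
  refine Finset.prod_congr rfl fun k _ => ?_
  have h1 : (Fin.cons a (Fin.tail c) : Fin (m + 1) → ℤ) = c := by rw [← hc2, Fin.cons_self_tail]
  simp only [h1, Fin.cons_succ]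
  rfl

theorem fib_triang {m : ℕ} {V : Finset (Fin (m + 1) → ℤ)} {β : (Fin (m + 1) → ℤ) → Fin (m + 1) → ℝ}
    (hT : Triang V β) (a : ℤ) : Triang (fib V a) (fun c' k => β (Fin.cons a c') k.succ) := by
  intro c hc c' hc' k hk
  obtain ⟨d, hd, rfl⟩ := Finset.mem_image.1 hc
  obtain ⟨d', hd', rfl⟩ := Finset.mem_image.1 hc'
  obtain ⟨hd1, hd2⟩ := Finset.mem_filter.1 hd
  obtain ⟨hd1', hd2'⟩ := Finset.mem_filter.1 hd'
  have e1 : (Fin.cons a (Fin.tail d) : Fin (m + 1) → ℤ) = d := by rw [← hd2, Fin.cons_self_tail]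
  have e2 : (Fin.cons a (Fin.tail d') : Fin (m + 1) → ℤ) = d' := by rw [← hd2', Fin.cons_self_tail]
  simp only [e1, e2]
  apply hT d hd1 d' hd1'
  intro l hl
  rcases Fin.eq_zero_or_eq_succ l with h | ⟨j, rfl⟩
  · rw [h, hd2, hd2']
  · exact hk j (by simpa using hl)

theorem FV_bound {K S : ℝ} (hK : 0 ≤ K) (hS : 0 ≤ S) (m : ℕ) (hm : 1 ≤ m) :
    ∀ Q : ℝ, 1 + 1 / (m : ℝ) < Q → ∃ B : ℝ, 0 ≤ B ∧ ∀ (V : Finset (Fin m → ℤ)) (β : (Fin m → ℤ) → Fin m → ℝ),
      Triang V β →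
      ∫⁻ t, ∫⁻ y, FV K V β t y ^ Q ∂volume ∂(τ S) ≤ ENNReal.ofReal (B * (V.card : ℝ) ^ (Q - 1 / (m : ℝ))) := by
  induction m, hm using Nat.le_induction with
  | base =>
    intro Q hQ
    simp only [Nat.cast_one, div_one] at hQ ⊢
    obtain ⟨B, hB0, hB⟩ := FV_base hK hS (Q := Q) (by linarith)
    exact ⟨B, hB0, fun V β _ => hB V β⟩
  | succ m hm ih =>
    intro q hq
    have hm0 : (0 : ℝ) < m := by
      have : 0 < m := by omega
      exact_mod_cast this
    have hm1 : (1 : ℝ) ≤ m := by exact_mod_cast hm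
    have hρ0 : (0 : ℝ) < 1 / ((m : ℝ) + 1) := by positivity
    have hρ1 : (1 : ℝ) / ((m : ℝ) + 1) ≤ 1 / 2 := by
      apply one_div_le_one_div_of_le (by norm_num); linarith
    have hρr : (1 / ((m : ℝ) + 1)) / (1 - 1 / ((m : ℝ) + 1)) = 1 / m := by
      have h1 : ((m : ℝ) + 1) ≠ 0 := by positivity
      have h2 : (1 : ℝ) - 1 / ((m : ℝ) + 1) = m / ((m : ℝ) + 1) := by field_simp; ring
      rw [h2, div_div_div_cancel_right₀ h1]
    push_cast at hq ⊢
    obtain ⟨Qp, Qm, hQp, hQm, hstep⟩ := step_core (G := (2 * K) ^ m) hρ0 hρ1 hq hK hS (by positivity)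
    rw [hρr] at hQp hQm hstep
    obtain ⟨Bp, hBp0, hBp⟩ := ih Qp hQp
    obtain ⟨Bm, hBm0, hBm⟩ := ih Qm hQm
    obtain ⟨D, hD0, hD⟩ := hstep Bp Bm hBp0 hBm0
    refine ⟨D, hD0, ?_⟩
    intro V β hT
    obtain ⟨b, hb⟩ := FV_cons (K := K) hT
    have h1 := hD (Fin m → ℝ) volume (V.image (fun c => c 0)) b (fun a => ((fib V a).card : ℝ))
      (fun a t z => FV K (fib V a) (fun c' k => β (Fin.cons a c') k.succ) t z) ?_ ?_ ?_ ?_ ?_
    · rw [fib_sum] at h1
      refine le_trans (le_of_eq ?_) h1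
      refine lintegral_congr fun t => ?_
      have hmeas : Measurable (fun y : Fin (m + 1) → ℝ => FV K V β t y ^ q) :=
        ((FV_measurable K V β).comp measurable_prodMk_left).pow_const _
      rw [lint_cons _ hmeas]
      refine lintegral_congr fun y0 => lintegral_congr fun z => ?_
      rw [hb]
    · intro a ha
      obtain ⟨c, hc, rfl⟩ := Finset.mem_image.1 ha
      have : 0 < (fib V (c 0)).card := by
        rw [fib_card, Finset.card_pos]
        exact ⟨c, Finset.mem_filter.2 ⟨hc, rfl⟩⟩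
      have h2 : 1 ≤ (fib V (c 0)).card := this
      exact_mod_cast h2
    · intro a
      exact FV_measurable K _ _
    · intro a _ t
      exact (FV_mass hK _ _ t).le
    · intro a _
      exact hBp _ _ (fib_triang hT a)
    · intro a _
      exact hBm _ _ (fib_triang hT a)

end Pool.Agent.W768.Tri
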