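import Pool.Agent.W768.Tri6
import Pool.Agent.H810R3.Tub.Bounds

set_option autoImplicit false

/-! From the model to tubes. -/

open MeasureTheory Set Filter Topology ENNReal NNReal

namespace Pool.Agent.W768.Tri

open Pool.Agent.H810R3.Tub

variable {d : ℕ}

/-- the slanted balls -/
noncomputable def Ge {ι : Type} [Fintype ι] (δ T : ℝ) (v β : ι → Vec d) (x : Vec d) (t : ℝ) : ℝ≥0∞ :=
  ∑ i, {p : Vec d × ℝ | |p.2| ≤ T ∧ ‖p.1 - (β i + p.2 • v i)‖ ≤ 2 * δ}.indicator (fun _ => (1 : ℝ≥0∞)) (x, t)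

theorem Ge_measurable {ι : Type} [Fintype ι] (δ T : ℝ) (v β : ι → Vec d) :
    Measurable (fun p : Vec d × ℝ => Ge δ T v β p.1 p.2) := by
  unfold Ge
  refine Finset.measurable_fun_sum _ fun i _ => ?_
  have h1 : MeasurableSet {p : Vec d × ℝ | |p.2| ≤ T} := measurableSet_le (by fun_prop) measurable_const
  have h2 : MeasurableSet {p : Vec d × ℝ | ‖p.1 - (β i + p.2 • v i)‖ ≤ 2 * δ} :=
    measurableSet_le (by fun_prop) measurable_const
  exact measurable_const.indicator (h1.inter h2)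

theorem Fe_le_Ge {ι : Type} [Fintype ι] {δ S : ℝ} (hδ : 0 < δ) (hδ1 : δ < 1) (v β : ι → Vec d)
    (s : ι → ℝ) (hv : ∀ i, ‖v i‖ ≤ 1) (hs : ∀ i, |s i| ≤ S) (x : Vec d) (t : ℝ) :
    Fe δ v β s x t ≤ Ge δ (S + 3 / 2) v β x t := by
  unfold Fe Ge
  refine Finset.sum_le_sum fun i _ => ?_
  by_cases hmem : (WithLp.toLp 2 (x, t) : Space d) ∈ tube δ (dir (v i)) (WithLp.toLp 2 (β i + s i • v i, s i))
  · have hmem' := hmem
    rw [tube_eq] at hmem'
    obtain ⟨ht, hx⟩ := Pool.Agent.H803R2.KakFTO.tube_subset hδ hδ1 (fun _ => β i) (hv i) (s i) hmem'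
    have ht2 : |t| ≤ S + 3 / 2 := by
      have h1 := abs_le.1 (hs i)
      rw [abs_le]
      constructor <;> linarith [ht.1, ht.2, h1.1, h1.2]
    rw [indicator_of_mem hmem, indicator_of_mem]
    exact ⟨ht2, hx⟩
  · rw [indicator_of_notMem hmem]
    exact zero_le

theorem Ge_rot {ι : Type} [Fintype ι] (δ T : ℝ) (v β : ι → Vec d) (U : Vec d ≃ₗᵢ[ℝ] Vec d) (x : Vec d)
    (t : ℝ) : Ge δ T v β x t = Ge δ T (fun i => U (v i)) (fun i => U (β i)) (U x) t := by
  unfold Ge
  refine Finset.sum_congr rfl fun i _ => ?_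
  have h : ‖U x - (U (β i) + t • U (v i))‖ = ‖x - (β i + t • v i)‖ := by
    rw [← U.norm_map (x - (β i + t • v i)), map_sub, map_add, map_smul]
  by_cases hm : |t| ≤ T ∧ ‖x - (β i + t • v i)‖ ≤ 2 * δ
  · rw [indicator_of_mem (show (x, t) ∈ {p : Vec d × ℝ | |p.2| ≤ T ∧ ‖p.1 - (β i + p.2 • v i)‖ ≤ 2 * δ} from hm),
      indicator_of_mem]
    refine ⟨hm.1, ?_⟩
    show ‖U x - (U (β i) + t • U (v i))‖ ≤ 2 * δ
    rw [h]; exact hm.2
  · rw [indicator_of_notMem (show (x, t) ∉ {p : Vec d × ℝ | |p.2| ≤ T ∧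
      ‖p.1 - (β i + p.2 • v i)‖ ≤ 2 * δ} from hm), indicator_of_notMem]
    rintro ⟨h1, h2⟩
    apply hm
    refine ⟨h1, ?_⟩
    rw [← h]
    exact h2

/-- the value of the position at a representative -/
noncomputable def pick {ι : Type} (f : ι → ℝ) (P : ι → Prop) : ℝ := by
  classical exact if h : ∃ i, P i then f h.choose else 0

theorem pick_spec {ι : Type} (f : ι → ℝ) {P : ι → Prop} (h : ∃ i, P i) : ∃ i, P i ∧ pick f P = f i := by
  refine ⟨h.choose, h.choose_spec, ?_⟩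
  unfold pick
  rw [dif_pos h]

theorem Ge_le_FV {ι : Type} [Fintype ι] {δ K T : ℝ} (hδ : 0 < δ) (v β : ι → Vec d)
    (htri : ∀ i j : ι, ∀ k : Fin d, (∀ l ≤ k, |v i l - v j l| ≤ δ) → |β i k - β j k| ≤ K * δ)
    (hsep : ∀ i j, i ≠ j → δ ≤ ‖v i - v j‖) :
    ∃ (V : Finset (Fin d → ℤ)) (b : (Fin d → ℤ) → Fin d → ℝ), V.card = Fintype.card ι ∧ Triang V b ∧
      ∀ x t, Ge δ T v β x t ≤ (Icc (-T) T).indicator (fun _ => (1 : ℝ≥0∞)) t *
        FV ((2 + K) * (d + 1) + T) V b t (fun k => x k / (δ / (d + 1))) := by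
  classical
  have hd0 : (0 : ℝ) ≤ d := Nat.cast_nonneg d
  have hd1 : (0 : ℝ) < (d : ℝ) + 1 := by positivity
  set ρ : ℝ := δ / (d + 1) with hρ
  have hρ0 : 0 < ρ := by positivity
  have hρδ : ρ ≤ δ := by
    rw [hρ, div_le_iff₀ hd1]; nlinarith
  have hρd : (d : ℝ) * ρ < δ := by
    rw [hρ, mul_div_assoc', div_lt_iff₀ hd1]; nlinarith
  have hδρ : δ = (d + 1) * ρ := by rw [hρ]; field_simp
  have hinj : Function.Injective (fun i => cell ρ (v i)) := by
    intro i j hij
    by_contra hne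
    have h1 := hsep i j hne
    have h2 := cell_close hρ0 (show cell ρ (v i) = cell ρ (v j) from hij)
    linarith
  have hclose : ∀ i j : ι, ∀ l : Fin d, cell ρ (v i) l = cell ρ (v j) l → |v i l - v j l| ≤ ρ := by
    intro i j l h
    have h3 : |v i l / ρ - v j l / ρ| < 1 := Int.abs_sub_lt_one_of_floor_eq_floor h
    rw [← _root_.sub_div, abs_div, abs_of_pos hρ0, div_lt_one hρ0] at h3
    exact h3.le
  refine ⟨Finset.univ.image (fun i => cell ρ (v i)),
    fun c k => pick (fun i => β i k / ρ) (fun i => ∀ l ≤ k, cell ρ (v i) l = c l), ?_, ?_, ?_⟩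
  · rw [Finset.card_image_of_injective _ hinj, Finset.card_univ]
  · intro c _ c' _ k hk
    have : (fun i => ∀ l ≤ k, cell ρ (v i) l = c l) = fun i => ∀ l ≤ k, cell ρ (v i) l = c' l := by
      funext i
      apply propext
      constructor
      · intro h l hl; rw [h l hl, hk l hl]
      · intro h l hl; rw [h l hl, hk l hl]
    simp only [this]
  · intro x t
    by_cases ht : |t| ≤ T
    · rw [indicator_of_mem (show t ∈ Icc (-T) T from abs_le.1 ht), one_mul]
      unfold Ge FV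
      rw [Finset.sum_image fun i _ j _ h => hinj h]
      refine Finset.sum_le_sum fun i _ => ?_
      by_cases hmem : |t| ≤ T ∧ ‖x - (β i + t • v i)‖ ≤ 2 * δ
      · rw [indicator_of_mem (show (x, t) ∈ {p : Vec d × ℝ | |p.2| ≤ T ∧
          ‖p.1 - (β i + p.2 • v i)‖ ≤ 2 * δ} from hmem), Finset.prod_eq_one]
        intro k _
        unfold J
        rw [if_pos]
        obtain ⟨j, hj1, hj2⟩ := pick_spec (fun i => β i k / ρ)
          (P := fun j => ∀ l ≤ k, cell ρ (v j) l = cell ρ (v i) l) ⟨i, fun l _ => rfl⟩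
        beta_reduce
        rw [hj2]
        have h1 : |β j k - β i k| ≤ K * δ := by
          apply htri
          intro l hl
          exact (hclose j i l (hj1 l hl)).trans hρδ
        have h2 : |x k - β i k - t * v i k| ≤ 2 * δ := by
          have h3 := PiLp.norm_apply_le (x - (β i + t • v i)) k
          rw [Real.norm_eq_abs] at h3
          have e : (x - (β i + t • v i)) k = x k - β i k - t * v i k := by
            simp only [PiLp.sub_apply, PiLp.add_apply, PiLp.smul_apply, smul_eq_mul]; ring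
          rw [e] at h3
          exact h3.trans hmem.2
        have h3 : |v i k - ρ * (cell ρ (v i) k : ℝ)| ≤ ρ := by
          have h4 := Int.floor_le (v i k / ρ)
          have h5 := Int.lt_floor_add_one (v i k / ρ)
          rw [le_div_iff₀ hρ0] at h4
          rw [div_lt_iff₀ hρ0] at h5
          unfold cell
          rw [abs_le]
          constructor <;> nlinarith
        have h6 : x k / ρ - β j k / ρ - t * (cell ρ (v i) k : ℝ) =
            ((x k - β i k - t * v i k) - (β j k - β i k) + t * (v i k - ρ * (cell ρ (v i) k : ℝ))) / ρ := by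
          field_simp; ring
        have hT0 : 0 ≤ T := (abs_nonneg t).trans ht
        rw [h6, abs_div, abs_of_pos hρ0, div_le_iff₀ hρ0]
        calc |(x k - β i k - t * v i k) - (β j k - β i k) + t * (v i k - ρ * (cell ρ (v i) k : ℝ))|
            ≤ |(x k - β i k - t * v i k) - (β j k - β i k)| + |t * (v i k - ρ * (cell ρ (v i) k : ℝ))| :=
              abs_add_le _ _
          _ ≤ (|x k - β i k - t * v i k| + |β j k - β i k|) + |t| * |v i k - ρ * (cell ρ (v i) k : ℝ)| := by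
              rw [abs_mul]
              gcongr
              exact abs_sub _ _
          _ ≤ (2 * δ + K * δ) + T * ρ := by gcongr
          _ = ((2 + K) * (d + 1) + T) * ρ := by rw [hδρ]; ring
      · rw [indicator_of_notMem (show (x, t) ∉ {p : Vec d × ℝ | |p.2| ≤ T ∧
          ‖p.1 - (β i + p.2 • v i)‖ ≤ 2 * δ} from hmem)]
        exact zero_le
    · have h0 : Ge δ T v β x t = 0 := by
        unfold Ge
        apply Finset.sum_eq_zero
        intro i _
        rw [indicator_of_notMem]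
        rintro ⟨h1, _⟩
        exact ht h1
      rw [h0]
      exact zero_le

theorem lint_scale (d : ℕ) {ρ : ℝ} (hρ : 0 < ρ) (F : (Fin d → ℝ) → ℝ≥0∞) (hF : Measurable F) :
    ∫⁻ x : Vec d, F (fun k => x k / ρ) = ENNReal.ofReal (ρ ^ d) * ∫⁻ y, F y := by
  have h1 := (PiLp.volume_preserving_ofLp (Fin d)).lintegral_comp
    (f := fun y : Fin d → ℝ => F (fun k => y k / ρ))
    (hF.comp (measurable_pi_iff.2 fun k => (measurable_pi_apply k).div_const _))
  have h2 : ∫⁻ x : Vec d, F (fun k => x k / ρ) = ∫⁻ y : Fin d → ℝ, F (fun k => y k / ρ) := h1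
  rw [h2]
  have h3 := Measure.map_addHaar_smul (volume : Measure (Fin d → ℝ)) (r := ρ⁻¹) (by positivity)
  have h4 : ∫⁻ y : Fin d → ℝ, F (fun k => y k / ρ) = ∫⁻ y : Fin d → ℝ, F (ρ⁻¹ • y) := by
    refine lintegral_congr fun y => ?_
    congr 1
    funext k
    simp only [Pi.smul_apply, smul_eq_mul]
    rw [div_eq_inv_mul]
  rw [h4, ← lintegral_map hF (measurable_const_smul ρ⁻¹), h3, lintegral_smul_measure, smul_eq_mul]
  congr 2
  rw [Module.finrank_fin_fun, inv_pow, inv_inv, abs_of_pos (by positivity)]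

theorem one_class (d : ℕ) (hd : 1 ≤ d) {q : ℝ} (hq : 1 + 1 / (d : ℝ) < q) {K S : ℝ} (hK : 0 ≤ K) (hS : 0 ≤ S) :
    ∃ B : ℝ, 0 ≤ B ∧ ∀ δ : ℝ, 0 < δ → δ < 1 → ∀ (ι : Type) [Fintype ι] (v β : ι → Vec d) (s : ι → ℝ)
      (U : Vec d ≃ₗᵢ[ℝ] Vec d),
      (∀ i, ‖v i‖ ≤ 1) → (∀ i, |s i| ≤ S) →
      (∀ i j : ι, ∀ k : Fin d, (∀ l ≤ k, |U (v i) l - U (v j) l| ≤ δ) → |U (β i) k - U (β j) k| ≤ K * δ) →
      (∀ i j, i ≠ j → δ ≤ ‖v i - v j‖) →
      ∫⁻ t : ℝ, ∫⁻ x : Vec d, Fe δ v β s x t ^ q ≤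
        ENNReal.ofReal (B * δ ^ d * (Fintype.card ι : ℝ) ^ (q - 1 / (d : ℝ))) := by
  have hd0 : (0 : ℝ) < d := by exact_mod_cast hd
  have hq0 : 0 < q := lt_trans (by positivity) hq
  set T : ℝ := S + 3 / 2 with hT
  have hT0 : 0 ≤ T := by positivity
  obtain ⟨B, hB0, hB⟩ := FV_bound (K := (2 + K) * (d + 1) + T) (by positivity) hT0 d hd q hq
  refine ⟨B, hB0, ?_⟩
  intro δ hδ hδ1 ι _ v β s U hv hs htri hsep
  have hsep' : ∀ i j, i ≠ j → δ ≤ ‖U (v i) - U (v j)‖ := by
    intro i j hij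
    rw [← map_sub, U.norm_map]
    exact hsep i j hij
  obtain ⟨V, b, hV, hTri, hle⟩ := Ge_le_FV (T := T) hδ (fun i => U (v i)) (fun i => U (β i)) htri hsep'
  have hρ0 : 0 < δ / ((d : ℝ) + 1) := by positivity
  have h1 : ∀ t : ℝ, ∫⁻ x : Vec d, Fe δ v β s x t ^ q ≤
      (Icc (-T) T).indicator (fun t => ENNReal.ofReal ((δ / ((d : ℝ) + 1)) ^ d) *
        ∫⁻ y, FV ((2 + K) * (d + 1) + T) V b t y ^ q) t := by
    intro t
    have hGm : Measurable (fun x : Vec d => Ge δ T (fun i => U (v i)) (fun i => U (β i)) x t ^ q) :=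
      ((Ge_measurable δ T _ _).comp (measurable_id.prodMk measurable_const)).pow_const _
    calc ∫⁻ x : Vec d, Fe δ v β s x t ^ q
        ≤ ∫⁻ x : Vec d, Ge δ T (fun i => U (v i)) (fun i => U (β i)) (U x) t ^ q := by
          refine lintegral_mono fun x => ?_
          simp only
          rw [← Ge_rot]
          exact ENNReal.rpow_le_rpow (Fe_le_Ge hδ hδ1 v β s hv hs x t) hq0.le
      _ = ∫⁻ x : Vec d, Ge δ T (fun i => U (v i)) (fun i => U (β i)) x t ^ q :=
          (LinearIsometryEquiv.measurePreserving U).lintegral_comp hGm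
      _ ≤ ∫⁻ x : Vec d, ((Icc (-T) T).indicator (fun _ => (1 : ℝ≥0∞)) t *
            FV ((2 + K) * (d + 1) + T) V b t (fun k => x k / (δ / (d + 1)))) ^ q :=
          lintegral_mono fun x => ENNReal.rpow_le_rpow (hle x t) hq0.le
      _ ≤ _ := by
          by_cases ht : t ∈ Icc (-T) T
          · simp only [indicator_of_mem ht, one_mul]
            have hm : Measurable (fun y : Fin d → ℝ => FV ((2 + K) * (d + 1) + T) V b t y ^ q) :=
              ((FV_measurable _ V b).comp measurable_prodMk_left).pow_const _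
            exact (lint_scale d hρ0 _ hm).le
          · simp only [indicator_of_notMem ht, zero_mul]
            rw [ENNReal.zero_rpow_of_pos hq0, lintegral_zero]
  have hN0 : (0 : ℝ) ≤ Fintype.card ι := Nat.cast_nonneg _
  calc ∫⁻ t : ℝ, ∫⁻ x : Vec d, Fe δ v β s x t ^ q
      ≤ ∫⁻ t, (Icc (-T) T).indicator (fun t => ENNReal.ofReal ((δ / ((d : ℝ) + 1)) ^ d) *
        ∫⁻ y, FV ((2 + K) * (d + 1) + T) V b t y ^ q) t := lintegral_mono h1
    _ = ENNReal.ofReal ((δ / ((d : ℝ) + 1)) ^ d) * ∫⁻ t, ∫⁻ y, FV ((2 + K) * (d + 1) + T) V b t y ^ q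
          ∂volume ∂(τ T) := by
        rw [lintegral_indicator measurableSet_Icc, lintegral_const_mul' _ _ ENNReal.ofReal_ne_top]
    _ ≤ ENNReal.ofReal (δ ^ d) * ENNReal.ofReal (B * (V.card : ℝ) ^ (q - 1 / (d : ℝ))) := by
        gcongr
        · rw [div_le_iff₀ (by positivity)]
          nlinarith [mul_nonneg hδ.le hd0.le]
        · exact hB V b hTri
    _ = _ := by
        rw [hV, ← ENNReal.ofReal_mul (by positivity)]
        congr 1; ring

/-- the norm of the sum over one class -/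
theorem class_norm (d : ℕ) (hd : 1 ≤ d) {q : ℝ} (hq : 1 + 1 / (d : ℝ) < q) {K S : ℝ} (hK : 0 ≤ K) (hS : 0 ≤ S) :
    ∃ B : ℝ, 0 ≤ B ∧ ∀ δ : ℝ, 0 < δ → δ < 1 → ∀ (ι : Type) [Fintype ι] (v β : ι → Vec d) (s : ι → ℝ)
      (U : Vec d ≃ₗᵢ[ℝ] Vec d),
      (∀ i, ‖v i‖ ≤ 1) → (∀ i, |s i| ≤ S) →
      (∀ i j : ι, ∀ k : Fin d, (∀ l ≤ k, |U (v i) l - U (v j) l| ≤ δ) → |U (β i) k - U (β j) k| ≤ K * δ) →
      (∀ i j, i ≠ j → δ ≤ ‖dir (v i) - dir (v j)‖) →
      eLpNorm (fun y : Space d => ∑ i,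
          (tube δ (dir (v i)) (WithLp.toLp 2 (β i + s i • v i, s i))).indicator (fun _ => (1 : ℝ)) y)
          (ENNReal.ofReal q) volume
        ≤ ENNReal.ofReal (B * δ ^ ((d : ℝ) / q) * (Fintype.card ι : ℝ) ^ (1 - 1 / (q * d))) := by
  have hd0 : (0 : ℝ) < d := by exact_mod_cast hd
  have hq0 : 0 < q := lt_trans (by positivity) hq
  obtain ⟨B, hB0, hB⟩ := one_class d hd hq hK hS
  refine ⟨B ^ (1 / q), by positivity, ?_⟩
  intro δ hδ hδ1 ι _ v β s U hv hs htri hsep
  have hint := hB δ hδ hδ1 ι v β s U hv hs htri fun i j hij => (hsep i j hij).trans (dir_sub_le _ _)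
  have hN0 : (0 : ℝ) ≤ Fintype.card ι := Nat.cast_nonneg _
  set f : Space d → ℝ := fun y => ∑ i,
    (tube δ (dir (v i)) (WithLp.toLp 2 (β i + s i • v i, s i))).indicator (fun _ => (1 : ℝ)) y with hf
  have hfm : Measurable f := by
    apply Finset.measurable_sum
    intro i _
    exact measurable_const.indicator (tube_closed _ _ _).measurableSet
  have hmp := WithLp.volume_preserving_toLp (Vec d) ℝ
  have hS : ∫⁻ y : Space d, ‖f y‖ₑ ^ q = ∫⁻ t : ℝ, ∫⁻ x : Vec d, Fe δ v β s x t ^ q := by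
    have hg : Measurable (fun y : Space d => ‖f y‖ₑ ^ q) := hfm.enorm.pow_const _
    rw [← hmp.lintegral_comp hg]
    have hg2 : Measurable (fun p : Vec d × ℝ => ‖f (WithLp.toLp 2 p)‖ₑ ^ q) := hg.comp hmp.measurable
    rw [Measure.volume_eq_prod, lintegral_prod_symm _ hg2.aemeasurable]
    refine lintegral_congr fun t => lintegral_congr fun x => ?_
    rw [hf]
    simp only
    rw [enorm_sum]
  have hp0 : ENNReal.ofReal q ≠ 0 := by
    rw [ne_eq, ENNReal.ofReal_eq_zero, not_le]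
    exact hq0
  rw [eLpNorm_eq_lintegral_rpow_enorm_toReal hp0 ENNReal.ofReal_ne_top, ENNReal.toReal_ofReal hq0.le, hS]
  calc (∫⁻ t : ℝ, ∫⁻ x : Vec d, Fe δ v β s x t ^ q) ^ (1 / q)
      ≤ (ENNReal.ofReal (B * δ ^ d * (Fintype.card ι : ℝ) ^ (q - 1 / (d : ℝ)))) ^ (1 / q) :=
        ENNReal.rpow_le_rpow hint (by positivity)
    _ = ENNReal.ofReal ((B * δ ^ d * (Fintype.card ι : ℝ) ^ (q - 1 / (d : ℝ))) ^ (1 / q)) :=
        ENNReal.ofReal_rpow_of_nonneg (by positivity) (by positivity)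
    _ = _ := by
        congr 1
        rw [Real.mul_rpow (by positivity) (by positivity), Real.mul_rpow hB0 (by positivity),
          ← Real.rpow_natCast δ d, ← Real.rpow_mul hδ.le, ← Real.rpow_mul hN0]
        have f3 : (d : ℝ) * (1 / q) = d / q := by ring
        have f4 : (q - 1 / (d : ℝ)) * (1 / q) = 1 - 1 / (q * d) := by field_simp
        rw [f3, f4]

/-- unions of classes -/
theorem classes (d : ℕ) (hd : 1 ≤ d) {q : ℝ} (hq : ((d : ℝ) + 1) / d < q) {K S : ℝ} (hK : 0 ≤ K) (hS : 0 ≤ S) :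
    ∃ C : ℝ, 0 < C ∧ ∀ δ : ℝ, 0 < δ → δ < 1 → ∀ (ι : Type) [Fintype ι] (v β : ι → Vec d) (s : ι → ℝ)
      (M : ℕ) (κ : ι → Fin M) (U : Fin M → (Vec d ≃ₗᵢ[ℝ] Vec d)),
      (∀ i, ‖v i‖ ≤ 1) → (∀ i, |s i| ≤ S) →
      (∀ i j : ι, i ≠ j → δ ≤ ‖dir (v i) - dir (v j)‖) →
      (∀ i j : ι, κ i = κ j → ∀ k : Fin d, (∀ l ≤ k, |U (κ i) (v i) l - U (κ i) (v j) l| ≤ δ) →
        |U (κ i) (β i) k - U (κ i) (β j) k| ≤ K * δ) →
      eLpNorm (fun y : Space d => ∑ i,
          (tube δ (dir (v i)) (WithLp.toLp 2 (β i + s i • v i, s i))).indicator (fun _ => (1 : ℝ)) y)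
          (ENNReal.ofReal q) volume
        ≤ ENNReal.ofReal (C * (M : ℝ) ^ (1 / (q * d)) * δ ^ ((d : ℝ) / q) *
            (Fintype.card ι : ℝ) ^ (1 - 1 / (q * d))) := by
  classical
  have hd0 : (0 : ℝ) < d := by exact_mod_cast hd
  have hq0 : 0 < q := lt_trans (by positivity) hq
  have hdq : (d : ℝ) + 1 < q * d := by rwa [div_lt_iff₀ hd0] at hq
  have hq' : 1 + 1 / (d : ℝ) < q := by
    rw [add_div, div_self hd0.ne'] at hq; exact hq
  have hq1 : 1 ≤ q := by
    have : (0 : ℝ) < 1 / d := by positivity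
    linarith
  obtain ⟨B, hB0, hB⟩ := class_norm d hd hq' hK hS
  refine ⟨2 * B + 1, by positivity, ?_⟩
  intro δ hδ hδ1 ι _ v β s M κ U hv hs hsep htri
  set G : ι → Space d → ℝ := fun i => (tube δ (dir (v i)) (WithLp.toLp 2 (β i + s i • v i, s i))).indicator
    (fun _ => (1 : ℝ)) with hG
  rcases isEmpty_or_nonempty ι with he | hne
  · have : (fun y : Space d => ∑ i, G i y) = fun _ => 0 := by
      funext y
      simp
    rw [this, eLpNorm_zero']
    exact zero_le
  have hN1 : (1 : ℝ) ≤ (Fintype.card ι : ℝ) := by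
    have := Fintype.card_pos (α := ι)
    exact_mod_cast this
  set N : ℝ := (Fintype.card ι : ℝ) with hN
  have hN0 : 0 < N := by linarith
  set θ : ℝ := 1 - 1 / (q * d) with hθ
  have hqd : 1 < q * d := by linarith
  have hθ0 : 0 < θ := by
    rw [hθ, sub_pos, div_lt_one (by linarith)]
    exact hqd
  have hθ1 : θ < 1 := by
    rw [hθ]
    have : 0 < 1 / (q * d) := by positivity
    linarith
  set I : Finset (Fin M) := Finset.univ with hI
  have hM0 : (0 : ℝ) < M := by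
    have : 0 < M := Fin.pos (κ hne.some)
    exact_mod_cast this
  set X : ℝ := B * δ ^ ((d : ℝ) / q) with hX
  have hX0 : 0 ≤ X := by positivity
  have hGm : ∀ i, Measurable (G i) := fun i => measurable_const.indicator (tube_closed _ _ _).measurableSet
  have hcell : ∀ c ∈ I, eLpNorm (fun y => ∑ i ∈ Finset.univ.filter (fun i => κ i = c), G i y)
      (ENNReal.ofReal q) volume ≤
      ENNReal.ofReal (X * ((Finset.univ.filter (fun i => κ i = c)).card : ℝ) ^ θ) := by
    intro c _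
    have key := hB δ hδ hδ1 {i // κ i = c} (fun i => v i.1) (fun i => β i.1) (fun i => s i.1) (U c)
      (fun i => hv i.1) (fun i => hs i.1) (by
        intro i j k hk
        have h := htri i.1 j.1 (i.2.trans j.2.symm) k
        rw [i.2] at h
        exact h hk)
      (fun i j hij => hsep i.1 j.1 (fun h => hij (Subtype.ext h)))
    have e1 : (fun y => ∑ i ∈ Finset.univ.filter (fun i => κ i = c), G i y) =
        fun y : Space d => ∑ i : {i // κ i = c}, (tube δ (dir (v i.1))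
          (WithLp.toLp 2 (β i.1 + s i.1 • v i.1, s i.1))).indicator (fun _ => (1 : ℝ)) y := by
      funext y
      exact Finset.sum_subtype _ (by simp) (fun i => G i y)
    have e2 : (Finset.univ.filter (fun i => κ i = c)).card = Fintype.card {i // κ i = c} :=
      (Fintype.card_subtype _).symm
    rw [e1, e2]
    exact key
  have hsum : (fun y : Space d => ∑ i, G i y) =
      ∑ c ∈ I, (fun y => ∑ i ∈ Finset.univ.filter (fun i => κ i = c), G i y) := by
    funext y
    rw [Finset.sum_apply]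
    exact (Finset.sum_fiberwise_of_maps_to (fun i _ => Finset.mem_univ (κ i)) (fun i => G i y)).symm
  have hNs : ∑ c ∈ I, ((Finset.univ.filter (fun i => κ i = c)).card : ℝ) = N := by
    rw [hN, ← Nat.cast_sum]
    congr 1
    exact (Finset.card_eq_sum_card_fiberwise (fun i _ => Finset.mem_coe.2 (Finset.mem_univ (κ i)))).symm
  have hcard : (I.card : ℝ) ≤ M := by rw [hI, Finset.card_univ, Fintype.card_fin]
  have hconc := sum_rpow_le I (fun c => ((Finset.univ.filter (fun i => κ i = c)).card : ℝ))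
    (fun c _ => Nat.cast_nonneg _) hNs hN0 hcard hM0 hθ0 hθ1
  have h1θ : 1 - θ = 1 / (q * d) := by rw [hθ]; ring
  rw [hsum]
  refine (eLpNorm_sum_le (fun c _ => (Finset.measurable_sum _ (fun i _ => hGm i)).aestronglyMeasurable)
    (by rw [← ENNReal.ofReal_one]; exact ENNReal.ofReal_le_ofReal hq1)).trans ?_
  calc
    ∑ c ∈ I, eLpNorm (fun y => ∑ i ∈ Finset.univ.filter (fun i => κ i = c), G i y)
        (ENNReal.ofReal q) volume
      ≤ ∑ c ∈ I, ENNReal.ofReal (X * ((Finset.univ.filter (fun i => κ i = c)).card : ℝ) ^ θ) :=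
        Finset.sum_le_sum hcell
    _ = ENNReal.ofReal (X * ∑ c ∈ I, ((Finset.univ.filter (fun i => κ i = c)).card : ℝ) ^ θ) := by
        rw [← ENNReal.ofReal_sum_of_nonneg (fun c _ => by positivity), Finset.mul_sum]
    _ ≤ ENNReal.ofReal (X * (2 * ((M : ℝ) ^ (1 - θ) * N ^ θ))) :=
        ENNReal.ofReal_le_ofReal (mul_le_mul_of_nonneg_left hconc hX0)
    _ ≤ ENNReal.ofReal ((2 * B + 1) * (M : ℝ) ^ (1 / (q * d)) * δ ^ ((d : ℝ) / q) * N ^ θ) := by
        apply ENNReal.ofReal_le_ofReal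
        rw [h1θ, hX]
        have hp : (0 : ℝ) ≤ (M : ℝ) ^ (1 / (q * d)) * δ ^ ((d : ℝ) / q) * N ^ θ := by positivity
        nlinarith

end Pool.Agent.W768.Tri
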