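import Pool.Agent.W768.Tri7

set_option autoImplicit false

/-!
# MP_850839: the tube inequality in the full range, without loss, for tubes compatible with a flag

Work in `ℝ^n = ℝ^d × ℝ`, `n = d + 1`, with its Euclidean norm (`Space d`).  A line with direction
`dir v = (v, 1)/|(v, 1)|` meets the hyperplane of height `0` in a point `(β, 0)`; a tube with this
axis is centred at `(β + s v, s)`.  The tubes considered have `|v| ≤ 1` and `|s| ≤ S`.

The tubes are divided into `M` classes, and each class `c` has an orthonormal frame of `ℝ^d`, given
by a linear isometry `U c`.  The condition is that inside a class, and for every `k`, two tubes whose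
directions agree up to `δ` in the first `k` coordinates of the frame have positions which agree up to
`K δ` in the `k`-th coordinate: for each member of the flag `ℝ^2 ⊂ ℝ^3 ⊂ ... ⊂ ℝ^n` of the frame, the
projections of the tubes form again a family in which tubes with the same direction essentially coincide.
Apart from this the positions are arbitrary functions of the directions.  For such families the
conjectured inequality holds for every `q > n/(n-1)` with constant `C M^(1/(q(n-1)))`, `C` depending
only on `n`, `q`, `K`, `S`.
-/

open MeasureTheory Set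

namespace Pool.Agent.Results.MP_850839_an.TriangularFamilies

open Pool.Agent.H810R3.Tub

/-- **The conjectured inequality for `δ`-tubes with `δ`-separated orientations, in the full range
`q > n/(n-1)`, `n = d + 1`, without any loss in `δ` and with the conjectured dependence on the number
of tubes**, for families of tubes compatible with flags. -/
theorem result (d : ℕ) (hd : 1 ≤ d) (q : ℝ) (hq : ((d : ℝ) + 1) / d < q) (K S : ℝ) (hK : 0 ≤ K)
    (hS : 0 ≤ S) :
    ∃ C : ℝ, 0 < C ∧
      ∀ δ : ℝ, 0 < δ → δ < 1 → ∀ (ι : Type) [Fintype ι] (v β : ι → Vec d) (s : ι → ℝ)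
        (M : ℕ) (κ : ι → Fin M) (U : Fin M → (Vec d ≃ₗᵢ[ℝ] Vec d)),
        (∀ i, ‖v i‖ ≤ 1) → (∀ i, |s i| ≤ S) →
        (∀ i j, i ≠ j → δ ≤ ‖dir (v i) - dir (v j)‖) →
        (∀ i j, κ i = κ j → ∀ k : Fin d, (∀ l ≤ k, |U (κ i) (v i) l - U (κ i) (v j) l| ≤ δ) →
          |U (κ i) (β i) k - U (κ i) (β j) k| ≤ K * δ) →
        eLpNorm (fun y : Space d => ∑ i,
            (tube δ (dir (v i)) (WithLp.toLp 2 (β i + s i • v i, s i))).indicator (fun _ => (1 : ℝ)) y)
            (ENNReal.ofReal q) volume
          ≤ ENNReal.ofReal (C * (M : ℝ) ^ (1 / (q * d)) * δ ^ ((d : ℝ) / q) *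
              (Fintype.card ι : ℝ) ^ (1 - 1 / (q * d))) :=
  Pool.Agent.W768.Tri.classes d hd hq hK hS

end Pool.Agent.Results.MP_850839_an.TriangularFamilies
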